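import Pool.Agent.H31.SQ.Main5

set_option autoImplicit false
set_option maxRecDepth 20000

open Finset Filter Topology

namespace Pool.Agent.H31.SQ

open Pool.Agent.H324.SQ Pool.Agent.Helper530.Sq Pool.Agent.Helper530.Sq.SqFAsm

/-- decay of the column densities: for all large `k` and all large `M` -/
theorem col_large (hK : S_KEY2) : ∃ k0 : ℕ, ∀ k : ℕ, k0 ≤ k → ∃ M0 : ℕ, ∀ M : ℕ, M0 ≤ M →
    ((((range M).filter (fun n => Squarefree (n.choose k))).card : ℕ) : ℝ) ≤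
      M * (4 * Real.exp (-(1 / 262144 * (Real.sqrt k / Real.log k ^ 2)))) := by
  obtain ⟨P0, hP0⟩ := primes_window
  obtain ⟨S1, hS1⟩ := growth (16384 ^ 3) 6
  refine ⟨(P0 + 2 ^ (S1 + 9)) ^ 2 + 16, fun k hk => ?_⟩
  obtain ⟨P, hP⟩ : ∃ P, P = Nat.sqrt k + 1 := ⟨_, rfl⟩
  have hPl : P0 + 2 ^ (S1 + 9) ≤ P := by
    have h1 : P0 + 2 ^ (S1 + 9) ≤ Nat.sqrt k := by
      rw [Nat.le_sqrt, ← pow_two]
      omega
    omega
  have h2S : 2 ^ 9 ≤ 2 ^ (S1 + 9) := Nat.pow_le_pow_right (by norm_num) (by omega)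
  have hP512 : 512 ≤ P := by omega
  have hk16 : 16 ≤ k := by omega
  have hP0P : P0 ≤ P := by omega
  have hpl2 : 2 ^ (S1 + 9) ≤ P := by omega
  clear hk h2S hPl
  have hkP : k < P ^ 2 := by
    have := Nat.lt_succ_sqrt k
    rw [hP, pow_two]
    exact this
  have hkP' : (P - 1) ^ 2 ≤ k := by
    have := Nat.sqrt_le k
    rw [hP, Nat.add_sub_cancel, pow_two]
    exact this
  have hPR : (512 : ℝ) ≤ P := by exact_mod_cast hP512
  have hP0' : (0 : ℝ) < P := by linarith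
  obtain ⟨e, he⟩ : ∃ e, e = Nat.log 2 P := ⟨_, rfl⟩
  have he1 : 2 ^ e ≤ P := by rw [he]; exact Nat.pow_log_le_self 2 (by omega)
  have he2 : P < 2 ^ (e + 1) := by rw [he]; exact Nat.lt_pow_succ_log_self (by norm_num) P
  have heS : S1 ≤ e := by
    have h1 : 2 ^ (S1 + 9) < 2 ^ (e + 1) := by omega
    have := (Nat.pow_lt_pow_iff_right (by norm_num)).1 h1
    omega
  clear hpl2
  obtain ⟨L, hL⟩ : ∃ L : ℝ, L = Real.log (4 * P) := ⟨_, rfl⟩
  have hL1 : 1 ≤ L := by
    rw [hL, Real.le_log_iff_exp_le (by positivity)]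
    have := Real.exp_one_lt_d9
    linarith
  have hL0 : 0 < L := by linarith
  have hL2 : L ≤ e + 3 := by
    have h1 : (4 * P : ℝ) ≤ 2 ^ (e + 3) := by
      have : 4 * P ≤ 2 ^ (e + 3) := by
        have e1 : 2 ^ (e + 3) = 4 * 2 ^ (e + 1) := by ring
        omega
      exact_mod_cast this
    have h2 : L ≤ Real.log (2 ^ (e + 3)) := by rw [hL]; exact Real.log_le_log (by positivity) h1
    rw [Real.log_pow] at h2
    have h3 : Real.log 2 ≤ 1 := by
      have := Real.log_two_lt_d9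
      linarith
    push_cast at h2
    have h4 : (0 : ℝ) ≤ (e : ℝ) + 3 := by positivity
    nlinarith
  -- `16384 L² ≤ P`
  have h16 : 16384 * L ^ 2 ≤ P := by
    have h1 := hS1 e heS
    have h3 : (16384 * (e + 3) ^ 2) ^ 3 ≤ (2 ^ e) ^ 3 := by
      calc (16384 * (e + 3) ^ 2) ^ 3 = 16384 ^ 3 * (e + 3) ^ 6 := by ring
        _ ≤ 4 ^ e := h1
        _ = 2 ^ (2 * e) := by rw [show (4 : ℕ) = 2 ^ 2 by norm_num, ← pow_mul]
        _ ≤ 2 ^ (e * 3) := Nat.pow_le_pow_right (by norm_num) (by omega)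
        _ = (2 ^ e) ^ 3 := by rw [← pow_mul]
    have h4 : 16384 * (e + 3) ^ 2 ≤ P := ((Nat.pow_le_pow_iff_left (by norm_num)).1 h3).trans he1
    have h5 : (16384 * ((e : ℝ) + 3) ^ 2) ≤ P := by exact_mod_cast h4
    have h6 : L ^ 2 ≤ ((e : ℝ) + 3) ^ 2 := pow_le_pow_left₀ hL0.le hL2 2
    linarith
  obtain ⟨r, hr⟩ : ∃ r, r = ⌊(P : ℝ) / (16384 * L ^ 2)⌋₊ := ⟨_, rfl⟩
  have hr1 : 1 ≤ r := by
    rw [hr]
    apply Nat.le_floor
    rw [Nat.cast_one, le_div_iff₀ (by positivity), one_mul]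
    exact h16
  have hr2 : (r : ℝ) ≤ (P : ℝ) / (16384 * L ^ 2) := by
    rw [hr]
    exact Nat.floor_le (by positivity)
  have hr3 : (P : ℝ) / (16384 * L ^ 2) < r + 1 := by
    rw [hr]
    exact Nat.lt_floor_add_one _
  have hr4 : 16384 * L ^ 2 * r ≤ P := by
    rw [le_div_iff₀ (by positivity)] at hr2
    linarith
  refine ⟨(4 * P) ^ (6 * r), fun M hM => ?_⟩
  have h12 : 12 * L ≤ P := by
    have hLL : L ≤ L ^ 2 := by nlinarith
    nlinarith
  have hkey := hK k P r M L hkP' hkP (by omega) hL1 h12 (by rw [hL]; exact hP0 P hP0P) hr1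
    (by nlinarith [sq_nonneg L, (Nat.cast_nonneg r : (0 : ℝ) ≤ r), mul_nonneg (sq_nonneg L) (Nat.cast_nonneg r : (0 : ℝ) ≤ r)]) hM
  refine hkey.trans ?_
  have hrat : 8192 * L ^ 2 * r / P ≤ 1 / 2 := by
    rw [div_le_div_iff₀ hP0' (by norm_num)]
    linarith
  have hpow : (8192 * L ^ 2 * r / P) ^ r ≤ (1 / 2) ^ r := pow_le_pow_left₀ (by positivity) hrat r
  -- `L ≤ 2 log k`
  have hsq : Real.sqrt k ≤ P := by
    rw [Real.sqrt_le_left hP0'.le]
    exact_mod_cast hkP.le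
  have hkR : (16 : ℝ) ≤ k := by exact_mod_cast hk16
  have hlogk : 1 ≤ Real.log k := by
    rw [Real.le_log_iff_exp_le (by linarith)]
    have := Real.exp_one_lt_d9
    linarith
  have hLk : L ≤ 2 * Real.log k := by
    have h1 : (4 * P : ℝ) ≤ (k : ℝ) ^ 2 := by
      have h2 : 4 * P ≤ k ^ 2 := by
        have h3 : Nat.sqrt k ≤ k := Nat.sqrt_le_self k
        nlinarith
      exact_mod_cast h2
    have h2 : L ≤ Real.log ((k : ℝ) ^ 2) := by rw [hL]; exact Real.log_le_log (by positivity) h1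
    rw [Real.log_pow] at h2
    push_cast at h2
    exact h2
  have hfin : (1 / 2 : ℝ) ^ r ≤ 2 * Real.exp (-(1 / 262144 * (Real.sqrt k / Real.log k ^ 2))) := by
    have h1 : Real.sqrt k / Real.log k ^ 2 ≤ 4 * (P / L ^ 2) := by
      rw [div_le_iff₀ (by positivity), mul_div_assoc', div_mul_eq_mul_div, le_div_iff₀ (by positivity)]
      have h2 : L ^ 2 ≤ (2 * Real.log k) ^ 2 := pow_le_pow_left₀ hL0.le hLk 2
      calc Real.sqrt k * L ^ 2 ≤ P * (2 * Real.log k) ^ 2 :=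
            mul_le_mul hsq h2 (by positivity) hP0'.le
        _ = 4 * P * Real.log k ^ 2 := by ring
    have h3 : (P : ℝ) / L ^ 2 = 16384 * (P / (16384 * L ^ 2)) := by
      field_simp
    have h4 : 1 / 262144 * (Real.sqrt k / Real.log k ^ 2) ≤ ((r : ℝ) + 1) / 4 := by
      rw [h3] at h1
      linarith
    have h5 : (1 / 2 : ℝ) ^ r = Real.exp (-(r * Real.log 2)) := by
      rw [Real.exp_neg, Real.exp_nat_mul, Real.exp_log (by norm_num), one_div, inv_pow]
    have h6 : (2 : ℝ) = Real.exp (Real.log 2) := (Real.exp_log (by norm_num)).symm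
    rw [h5]
    calc Real.exp (-(r * Real.log 2)) ≤
          Real.exp (Real.log 2 + -(1 / 262144 * (Real.sqrt k / Real.log k ^ 2))) := by
          apply Real.exp_le_exp.2
          have h7 := Real.log_two_gt_d9
          have h8 : (0 : ℝ) ≤ (r : ℝ) := Nat.cast_nonneg _
          nlinarith
      _ = 2 * Real.exp (-(1 / 262144 * (Real.sqrt k / Real.log k ^ 2))) := by
          rw [Real.exp_add, Real.exp_log (by norm_num)]
  calc 2 * (M : ℝ) * (8192 * L ^ 2 * r / P) ^ r ≤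
        2 * (M : ℝ) * (2 * Real.exp (-(1 / 262144 * (Real.sqrt k / Real.log k ^ 2)))) :=
        mul_le_mul_of_nonneg_left (hpow.trans hfin) (by positivity)
    _ = M * (4 * Real.exp (-(1 / 262144 * (Real.sqrt k / Real.log k ^ 2)))) := by ring

/-- decay of the column densities -/
theorem col_decay (hK : S_KEY2) : ∃ C c : ℝ, 0 < C ∧ 0 < c ∧ ∀ (k q a : ℕ) (l : ℝ), 2 ≤ k →
    Tendsto (fun N : ℕ => (cnt k q a N : ℝ) / N) atTop (𝓝 l) →
    l ≤ C * Real.exp (-(c * (Real.sqrt k / Real.log k ^ 2))) := by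
  obtain ⟨k0, hk0⟩ := col_large hK
  obtain ⟨e0, he0⟩ : ∃ e0 : ℝ, e0 = Real.exp (-(1 / 262144 * (Real.sqrt k0 / Real.log 2 ^ 2))) :=
    ⟨_, rfl⟩
  have he0pos : 0 < e0 := by rw [he0]; exact Real.exp_pos _
  refine ⟨max 4 (1 / e0), 1 / 262144, lt_of_lt_of_le (by norm_num) (le_max_left _ _),
    by norm_num, fun k q a l hk2 hl => ?_⟩
  by_cases hk : k0 ≤ k
  · obtain ⟨M0, hM0⟩ := hk0 k hk
    refine le_trans ?_ (mul_le_mul_of_nonneg_right (le_max_left 4 (1 / e0)) (Real.exp_pos _).le)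
    apply le_of_tendsto hl
    filter_upwards [eventually_ge_atTop (max M0 1)] with M hM
    have hM1 : 1 ≤ M := (le_max_right _ _).trans hM
    have hMR : (0 : ℝ) < M := by exact_mod_cast hM1
    rw [div_le_iff₀ hMR]
    have h1 := hM0 M ((le_max_left _ _).trans hM)
    have h2 : cnt k q a M ≤ ((range M).filter (fun n => Squarefree (n.choose k))).card := by
      unfold cnt
      apply card_le_card
      intro n hn
      rw [mem_filter] at hn ⊢
      exact ⟨hn.1, hn.2.2.2⟩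
    have h3 : (cnt k q a M : ℝ) ≤
        ((((range M).filter (fun n => Squarefree (n.choose k))).card : ℕ) : ℝ) := by
      exact_mod_cast h2
    calc (cnt k q a M : ℝ) ≤ _ := h3.trans h1
      _ = 4 * Real.exp (-(1 / 262144 * (Real.sqrt k / Real.log k ^ 2))) * M := by ring
  · push Not at hk
    have h1 : l ≤ 1 := by
      apply le_of_tendsto' hl
      intro N
      apply div_le_one_of_le₀ _ (Nat.cast_nonneg _)
      exact_mod_cast cnt_le k q a N
    have h2 : e0 ≤ Real.exp (-(1 / 262144 * (Real.sqrt k / Real.log k ^ 2))) := by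
      rw [he0]
      apply Real.exp_le_exp.2
      have h3 : Real.sqrt k ≤ Real.sqrt k0 := Real.sqrt_le_sqrt (by exact_mod_cast hk.le)
      have h4 : Real.log 2 ≤ Real.log k := Real.log_le_log (by norm_num) (by exact_mod_cast hk2)
      have h5 : 0 < Real.log 2 := Real.log_pos (by norm_num)
      have h6 : Real.sqrt k / Real.log k ^ 2 ≤ Real.sqrt k0 / Real.log 2 ^ 2 := by
        apply div_le_div₀ (Real.sqrt_nonneg _) h3 (by positivity)
        exact pow_le_pow_left₀ h5.le h4 2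
      linarith
    calc l ≤ 1 := h1
      _ = 1 / e0 * e0 := by field_simp
      _ ≤ 1 / e0 * Real.exp (-(1 / 262144 * (Real.sqrt k / Real.log k ^ 2))) :=
          mul_le_mul_of_nonneg_left h2 (by positivity)
      _ ≤ _ := mul_le_mul_of_nonneg_right (le_max_right _ _) (Real.exp_pos _).le

end Pool.Agent.H31.SQ
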