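import Mathlib

/-!
Project SQ (helper31): Mathlib-only jobs for `S(N) = γ N + O(N exp(-(log N)^θ))`, every `θ < 1`
(squarefree entries of Pascal's triangle).  Statements.
-/

set_option autoImplicit false

open Finset Filter Topology

namespace Pool.Agent.H31.SQ

/-- the positions `i ≤ log_p k + 2` at which subtracting `k` from `n` in base `p` borrows -/
def gset (k p n : ℕ) : Finset ℕ := (Icc 1 (Nat.log p k + 2)).filter (fun i => n % p ^ i < k % p ^ i)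

/-- at least two borrows -/
def GG (k p n : ℕ) : Prop := 2 ≤ (gset k p n).card

instance (k p : ℕ) : DecidablePred (GG k p) := fun n => by unfold GG; infer_instance

/-- JOB KUM. -/
def S_KUM : Prop :=
  (∀ k p n m : ℕ, GG k p (n + p ^ (Nat.log p k + 2) * m) ↔ GG k p n) ∧
  (∀ k p n : ℕ, p.Prime → k ≤ n → (p ^ 2 ∣ n.choose k ↔ GG k p n)) ∧
  (∀ k p n : ℕ, p.Prime → k < p ^ 2 → GG k p n → n % p ^ 2 < k)

/-- JOB ER (large sieve for the moduli `p ^ 2` by the elementary symmetric functions of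
`|E p| / p ^ 2 - 1_{E p}`). -/
def S_ER : Prop := ∀ (S : Finset ℕ) (E : ℕ → Finset ℕ) (β : ℝ) (X r M : ℕ),
  (∀ p ∈ S, p.Prime) → (∀ p ∈ S, E p ⊆ range (p ^ 2)) → 0 < β →
  (∀ p ∈ S, β ≤ ((E p).card : ℝ) / ((p ^ 2 : ℕ) : ℝ)) → (∀ p ∈ S, p ≤ X) → S.card ≤ X → 1 ≤ r →
  2 * r ≤ S.card → X ^ (6 * r) ≤ M → 2 * (r : ℝ) ≤ S.card * β →
  ((((range M).filter (fun n => ∀ p ∈ S, n % p ^ 2 ∉ E p)).card : ℕ) : ℝ) ≤
    2 * M * (2 * r / (S.card * β)) ^ r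

/-- JOB RANK (Rankin's trick). -/
def S_RANK : Prop := ∀ (S : Finset ℕ) (k z y D : ℕ) (σ : ℝ), 0 < σ → σ ≤ 1 / 2 → 1 ≤ z → 1 ≤ D →
  S ⊆ Ioc z y →
  ∑ T ∈ S.powerset.filter (fun T => D < ∏ p ∈ T, p), ∏ p ∈ T, ((k : ℝ) / (p : ℝ) ^ 2) ≤
    (D : ℝ) ^ (-σ) * Real.exp (2 * k * (z : ℝ) ^ (σ - 1))

/-- JOB TRUNC (truncated inclusion-exclusion by the size of the product). -/
def S_TRUNC : Prop := ∀ (B : Finset ℕ) (y : ℕ), (∀ p ∈ B, 2 ≤ p ∧ p ≤ y) → ∀ D : ℕ, 1 ≤ D →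
  |(if B = ∅ then (1 : ℝ) else 0) -
      ∑ T ∈ B.powerset.filter (fun T => ∏ p ∈ T, p ≤ D), (-1 : ℝ) ^ T.card| ≤
    ((B.powerset.filter (fun T => D < ∏ p ∈ T, p ∧ ∏ p ∈ T, p ≤ D * y)).card : ℝ)

end Pool.Agent.H31.SQ
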