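import Mathlib

/-! Mathlib-only jobs, second part (helper31). -/

set_option autoImplicit false

open Finset Filter Topology

namespace Pool.Agent.H31.SQ

def lam (h : ℕ) : ℕ := Nat.log 2 h + 1

/-- JOB LOW -/
def S_LOW : Prop := ∀ A : ℕ, 1 ≤ A → ∃ (c : ℝ) (H0 : ℕ), 0 < c ∧ ∀ h N : ℕ, H0 ≤ h →
  2 ^ (A * (h * lam h ^ 3)) ≤ N → N < 2 ^ (A * ((h + 1) * lam (h + 1) ^ 3)) →
  (1 : ℝ) / 2 ^ (4 * h) ≤ Real.exp (-(c * (Real.log N / Real.log (Real.log N) ^ 3)))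

/-- JOB EXH -/
def S_EXH : Prop := ∀ A H N : ℕ, 1 ≤ A → 1 ≤ H → 2 ^ (A * (H * lam H ^ 3)) ≤ N →
  ∃ h, H ≤ h ∧ 2 ^ (A * (h * lam h ^ 3)) ≤ N ∧ N < 2 ^ (A * ((h + 1) * lam (h + 1) ^ 3))

end Pool.Agent.H31.SQ
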