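import Pool.Agent.H31.SQ.Core

/-!
JOB ER for helper31 (project SQ): a large sieve for the moduli `p ^ 2` by the elementary symmetric
functions (helper95).
-/

set_option autoImplicit false

open Finset

namespace Pool.Agent.H31.SQ

theorem er_two_mod (m q : ℕ) (hm : 0 < m) (hq : 0 < q) (hc : Nat.Coprime m q) (g G : ℕ → ℝ)
    (hg : ∀ n, g (n % m) = g n) (hG : ∀ n, G (n % q) = G n) :
    ∑ n ∈ range (m * q), g n * G n = (∑ r ∈ range m, g r) * ∑ s ∈ range q, G s := by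
  have hinj : Set.InjOn (fun n : ℕ => (n % m, n % q)) ((range (m * q) : Finset ℕ) : Set ℕ) := by
    intro a ha b hb hab
    rw [Finset.mem_coe, mem_range] at ha hb
    have h1 : a % m = b % m := congrArg Prod.fst hab
    have h2 : a % q = b % q := congrArg Prod.snd hab
    have h3 : a ≡ b [MOD m * q] := (Nat.modEq_and_modEq_iff_modEq_mul hc).1 ⟨h1, h2⟩
    exact Nat.ModEq.eq_of_lt_of_lt h3 ha hb
  have himg : (range (m * q)).image (fun n : ℕ => (n % m, n % q)) = range m ×ˢ range q := by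
    apply Finset.eq_of_subset_of_card_le
    · intro x hx
      rw [Finset.mem_image] at hx
      obtain ⟨n, -, rfl⟩ := hx
      rw [Finset.mem_product, mem_range, mem_range]
      exact ⟨Nat.mod_lt _ hm, Nat.mod_lt _ hq⟩
    · rw [Finset.card_image_of_injOn hinj, Finset.card_product, card_range, card_range, card_range]
  have h1 : ∑ n ∈ range (m * q), g n * G n =
      ∑ x ∈ range m ×ˢ range q, g x.1 * G x.2 := by
    rw [← himg, Finset.sum_image hinj]
    apply Finset.sum_congr rfl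
    intro n _
    simp only
    rw [hg, hG]
  rw [h1, Finset.sum_product]
  simp only
  simp_rw [← Finset.mul_sum]
  rw [← Finset.sum_mul]

theorem er_prod_per (T : Finset ℕ) (f : ℕ → ℕ → ℝ) (hf : ∀ p n, f p (n % p ^ 2) = f p n) (n : ℕ) :
    ∏ p ∈ T, f p (n % ∏ p ∈ T, p ^ 2) = ∏ p ∈ T, f p n := by
  refine prod_congr rfl fun p hp => ?_
  rw [← hf p (n % ∏ p ∈ T, p ^ 2), ← hf p n]
  congr 1
  exact Nat.mod_mod_of_dvd _ (Finset.dvd_prod_of_mem (fun p => p ^ 2) hp)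

theorem er_full_period (T : Finset ℕ) (hT : ∀ p ∈ T, p.Prime) (f : ℕ → ℕ → ℝ)
    (hf : ∀ p n, f p (n % p ^ 2) = f p n) :
    ∑ n ∈ range (∏ p ∈ T, p ^ 2), ∏ p ∈ T, f p n = ∏ p ∈ T, ∑ r ∈ range (p ^ 2), f p r := by
  classical
  induction T using Finset.induction_on with
  | empty => simp
  | insert a T ha ih =>
    have hT' : ∀ p ∈ T, p.Prime := fun p hp => hT p (mem_insert_of_mem hp)
    have hap : a.Prime := hT a (mem_insert_self _ _)
    rw [prod_insert ha, prod_insert ha]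
    have e1 : ∀ n, ∏ p ∈ insert a T, f p n = f a n * ∏ p ∈ T, f p n := fun n => prod_insert ha
    simp_rw [e1]
    rw [er_two_mod (a ^ 2) (∏ p ∈ T, p ^ 2) (pow_pos hap.pos 2)
      (prod_pos fun p hp => pow_pos (hT' p hp).pos 2) ?_ (f a) (fun n => ∏ p ∈ T, f p n)
      (hf a) (fun n => er_prod_per T f hf n), ih hT']
    apply Nat.Coprime.prod_right
    intro p hp
    apply Nat.Coprime.pow
    rw [Nat.coprime_primes hap (hT' p hp)]
    rintro rfl
    exact ha hp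

/-- Sums of periodic products over an initial interval. -/
theorem er_sum_le (U : Finset ℕ) (hU : ∀ p ∈ U, p.Prime) (f : ℕ → ℕ → ℝ)
    (hf : ∀ p n, f p (n % p ^ 2) = f p n) (h1 : ∀ p ∈ U, ∀ n, |f p n| ≤ 1) (M : ℕ) :
    ∑ n ∈ range M, ∏ p ∈ U, f p n ≤
      ((M / ∏ p ∈ U, p ^ 2 : ℕ) : ℝ) * ∏ p ∈ U, ∑ r ∈ range (p ^ 2), f p r +
        ((∏ p ∈ U, p ^ 2 : ℕ) : ℝ) := by
  set Q : ℕ := ∏ p ∈ U, p ^ 2 with hQ
  have hQ0 : 0 < Q := prod_pos fun p hp => pow_pos (hU p hp).pos 2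
  set F : ℕ → ℝ := fun n => ∏ p ∈ U, f p n with hF
  have hF1 : ∀ n, F n ≤ 1 := by
    intro n
    refine (le_abs_self _).trans ?_
    rw [hF]
    simp only
    rw [Finset.abs_prod]
    exact Finset.prod_le_one (fun _ _ => abs_nonneg _) (fun p hp => h1 p hp n)
  have hper : ∀ n, F (n % Q) = F n := fun n => er_prod_per U f hf n
  have hmul : ∀ j : ℕ, ∑ n ∈ range (Q * j), F n = j * ∑ n ∈ range Q, F n := by
    intro j
    induction j with
    | zero => simp
    | succ j ih =>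
      rw [Nat.mul_succ, sum_range_add, ih]
      have : ∀ x, F (Q * j + x) = F x := by
        intro x
        rw [← hper (Q * j + x), ← hper x, Nat.add_comm, Nat.add_mul_mod_self_left]
      simp_rw [this]
      push_cast
      ring
  have h2 : ∑ n ∈ range Q, F n = ∏ p ∈ U, ∑ r ∈ range (p ^ 2), f p r := er_full_period U hU f hf
  have h3 : ∑ n ∈ range M, F n = ∑ n ∈ range (Q * (M / Q)), F n +
      ∑ x ∈ range (M % Q), F (Q * (M / Q) + x) := by
    rw [← sum_range_add, Nat.div_add_mod]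
  rw [h3, hmul, h2]
  have h4 : ∑ x ∈ range (M % Q), F (Q * (M / Q) + x) ≤ (Q : ℝ) := by
    calc ∑ x ∈ range (M % Q), F (Q * (M / Q) + x) ≤ ∑ x ∈ range (M % Q), (1 : ℝ) :=
          Finset.sum_le_sum fun x _ => hF1 _
      _ = ((M % Q : ℕ) : ℝ) := by simp
      _ ≤ (Q : ℝ) := by exact_mod_cast (Nat.mod_lt _ hQ0).le
  linarith

/-- the weights: `b p = |E p| / p ^ 2` -/
noncomputable def erb (E : ℕ → Finset ℕ) (p : ℕ) : ℝ := ((E p).card : ℝ) / ((p ^ 2 : ℕ) : ℝ)

/-- `|E p| / p ^ 2 - 1_{E p}` -/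
noncomputable def erg (E : ℕ → Finset ℕ) (p n : ℕ) : ℝ :=
  erb E p - if n % p ^ 2 ∈ E p then 1 else 0

theorem erg_per (E : ℕ → Finset ℕ) (p n : ℕ) : erg E p (n % p ^ 2) = erg E p n := by
  unfold erg
  rw [Nat.mod_mod]

theorem erb_nonneg (E : ℕ → Finset ℕ) (p : ℕ) : 0 ≤ erb E p := by
  unfold erb; positivity

theorem erb_le_one {E : ℕ → Finset ℕ} {p : ℕ} (hE : E p ⊆ range (p ^ 2)) : erb E p ≤ 1 := by
  unfold erb
  apply div_le_one_of_le₀
  · have := Finset.card_le_card hE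
    rw [card_range] at this
    exact_mod_cast this
  · positivity

theorem erg_abs {E : ℕ → Finset ℕ} {p : ℕ} (hE : E p ⊆ range (p ^ 2)) (n : ℕ) :
    |erg E p n| ≤ 1 := by
  have h0 := erb_nonneg E p
  have h1 := erb_le_one hE
  unfold erg
  rw [abs_le]
  split_ifs <;> constructor <;> linarith

theorem er_ind {E : ℕ → Finset ℕ} {p : ℕ} (hE : E p ⊆ range (p ^ 2)) :
    ∑ a ∈ range (p ^ 2), (if a % p ^ 2 ∈ E p then (1 : ℝ) else 0) = ((E p).card : ℝ) := by
  have h1 : ∑ a ∈ range (p ^ 2), (if a % p ^ 2 ∈ E p then (1 : ℝ) else 0) =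
      ∑ a ∈ range (p ^ 2), (if a ∈ E p then (1 : ℝ) else 0) := by
    refine Finset.sum_congr rfl fun a ha => ?_
    rw [Nat.mod_eq_of_lt (mem_range.1 ha)]
  rw [h1, Finset.sum_ite_mem, Finset.inter_eq_right.2 hE]
  simp

theorem er_card {E : ℕ → Finset ℕ} {p : ℕ} (hp : p.Prime) :
    ((E p).card : ℝ) = ((p ^ 2 : ℕ) : ℝ) * erb E p := by
  have h : (((p ^ 2 : ℕ)) : ℝ) ≠ 0 := by
    exact_mod_cast (pow_pos hp.pos 2).ne'
  unfold erb
  field_simp

theorem erg_sum {E : ℕ → Finset ℕ} {p : ℕ} (hp : p.Prime) (hE : E p ⊆ range (p ^ 2)) :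
    ∑ a ∈ range (p ^ 2), erg E p a = 0 := by
  unfold erg
  rw [Finset.sum_sub_distrib, er_ind hE, er_card hp]
  simp

theorem erg_sum_sq {E : ℕ → Finset ℕ} {p : ℕ} (hp : p.Prime) (hE : E p ⊆ range (p ^ 2)) :
    ∑ a ∈ range (p ^ 2), erg E p a * erg E p a ≤ ((p ^ 2 : ℕ) : ℝ) * erb E p := by
  have h1 : ∀ a : ℕ, erg E p a * erg E p a =
      erb E p * erb E p + (1 - 2 * erb E p) * (if a % p ^ 2 ∈ E p then (1 : ℝ) else 0) := by
    intro a
    unfold erg
    split_ifs <;> ring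
  simp_rw [h1]
  rw [Finset.sum_add_distrib, Finset.sum_const, ← Finset.mul_sum, er_ind hE, er_card hp,
    card_range, nsmul_eq_mul]
  have h0 := erb_nonneg E p
  have h2 : (0 : ℝ) ≤ ((p ^ 2 : ℕ) : ℝ) := by positivity
  nlinarith [mul_nonneg h2 (mul_nonneg h0 h0)]

/-- The correlation of the products over `T` and `T'`. -/
theorem er_pair {S : Finset ℕ} {E : ℕ → Finset ℕ} {X r : ℕ} (hS : ∀ p ∈ S, p.Prime)
    (hE : ∀ p ∈ S, E p ⊆ range (p ^ 2)) (hX : ∀ p ∈ S, p ≤ X) (hX1 : 1 ≤ X)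
    (M : ℕ) {T T' : Finset ℕ} (hT : T ∈ powersetCard r S) (hT' : T' ∈ powersetCard r S) :
    ∑ n ∈ range M, (∏ p ∈ T, erg E p n) * ∏ p ∈ T', erg E p n ≤
      (if T = T' then (M : ℝ) * ∏ p ∈ T, erb E p else 0) + (X : ℝ) ^ (4 * r) := by
  classical
  rw [mem_powersetCard] at hT hT'
  set U := T ∪ T' with hU
  have hUS : U ⊆ S := Finset.union_subset hT.1 hT'.1
  set f : ℕ → ℕ → ℝ := fun p n =>
    (if p ∈ T then erg E p n else 1) * (if p ∈ T' then erg E p n else 1) with hf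
  have hprod : ∀ n, ∏ p ∈ U, f p n = (∏ p ∈ T, erg E p n) * ∏ p ∈ T', erg E p n := by
    intro n
    rw [hf]
    simp only
    rw [Finset.prod_mul_distrib, Finset.prod_ite_mem, Finset.prod_ite_mem]
    congr 2
    · exact Finset.inter_eq_right.2 Finset.subset_union_left
    · exact Finset.inter_eq_right.2 Finset.subset_union_right
  have hper : ∀ p n, f p (n % p ^ 2) = f p n := by
    intro p n
    rw [hf]
    simp only
    rw [erg_per]
  have habs : ∀ p ∈ U, ∀ n, |f p n| ≤ 1 := by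
    intro p hp n
    have h1 := erg_abs (hE p (hUS hp)) n
    rw [hf]
    simp only
    rw [abs_mul]
    have h2 : ∀ (c : Prop) [Decidable c], |if c then erg E p n else 1| ≤ 1 := by
      intro c _
      split_ifs
      · exact h1
      · simp
    exact mul_le_one₀ (h2 _) (abs_nonneg _) (h2 _)
  have key := er_sum_le U (fun p hp => hS p (hUS hp)) f hper habs M
  simp_rw [hprod] at key
  refine key.trans ?_
  have hQ : ((∏ p ∈ U, p ^ 2 : ℕ) : ℝ) ≤ (X : ℝ) ^ (4 * r) := by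
    have h1 : ∏ p ∈ U, p ^ 2 ≤ (X ^ 2) ^ U.card :=
      Finset.prod_le_pow_card _ _ _ fun p hp => Nat.pow_le_pow_left (hX p (hUS hp)) 2
    have h2 : U.card ≤ 2 * r := by
      have := Finset.card_union_le T T'
      rw [← hU, hT.2, hT'.2] at this
      omega
    have h3 : (X ^ 2) ^ U.card ≤ X ^ (4 * r) := by
      rw [← pow_mul]
      exact Nat.pow_le_pow_right hX1 (by omega)
    exact_mod_cast h1.trans h3
  refine add_le_add ?_ hQ
  by_cases hTT : T = T'
  · rw [if_pos hTT]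
    have hUT : U = T := by rw [hU, ← hTT, Finset.union_self]
    have hQ0 : 0 < ∏ p ∈ U, p ^ 2 := prod_pos fun p hp => pow_pos (hS p (hUS hp)).pos 2
    have h1 : ∏ p ∈ U, ∑ a ∈ range (p ^ 2), f p a ≤
        ((∏ p ∈ U, p ^ 2 : ℕ) : ℝ) * ∏ p ∈ T, erb E p := by
      rw [← hUT]
      push_cast
      rw [← Finset.prod_mul_distrib]
      apply Finset.prod_le_prod
      · intro p hp
        apply Finset.sum_nonneg
        intro a _
        have hpT : p ∈ T := hUT ▸ hp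
        have hpT' : p ∈ T' := hTT ▸ hpT
        rw [hf]
        simp only [if_pos hpT, if_pos hpT']
        exact mul_self_nonneg _
      · intro p hp
        have hpT : p ∈ T := hUT ▸ hp
        have hpT' : p ∈ T' := hTT ▸ hpT
        rw [hf]
        simp only [if_pos hpT, if_pos hpT']
        have := erg_sum_sq (E := E) (hS p (hUS hp)) (hE p (hUS hp))
        push_cast at this
        exact this
    have h2 : ((M / ∏ p ∈ U, p ^ 2 : ℕ) : ℝ) * ((∏ p ∈ U, p ^ 2 : ℕ) : ℝ) ≤ M := by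
      exact_mod_cast Nat.div_mul_le_self _ _
    have h3 : 0 ≤ ∏ p ∈ T, erb E p := Finset.prod_nonneg fun p _ => erb_nonneg E p
    calc ((M / ∏ p ∈ U, p ^ 2 : ℕ) : ℝ) * ∏ p ∈ U, ∑ a ∈ range (p ^ 2), f p a
        ≤ ((M / ∏ p ∈ U, p ^ 2 : ℕ) : ℝ) *
          (((∏ p ∈ U, p ^ 2 : ℕ) : ℝ) * ∏ p ∈ T, erb E p) :=
          mul_le_mul_of_nonneg_left h1 (Nat.cast_nonneg _)
      _ = (((M / ∏ p ∈ U, p ^ 2 : ℕ) : ℝ) * ((∏ p ∈ U, p ^ 2 : ℕ) : ℝ)) * ∏ p ∈ T, erb E p := by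
          ring
      _ ≤ (M : ℝ) * ∏ p ∈ T, erb E p := mul_le_mul_of_nonneg_right h2 h3
  · rw [if_neg hTT]
    have hex : ∃ p ∈ T, p ∉ T' := by
      by_contra hcon
      push Not at hcon
      exact hTT (Finset.eq_of_subset_of_card_le hcon (by rw [hT.2, hT'.2]))
    obtain ⟨p, hp, hp'⟩ := hex
    have hpU : p ∈ U := Finset.mem_union_left _ hp
    have h0 : ∑ a ∈ range (p ^ 2), f p a = 0 := by
      rw [hf]
      simp only [if_pos hp, if_neg hp', mul_one]
      exact erg_sum (hS p (hUS hpU)) (hE p (hUS hpU))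
    have h1 : ∏ p ∈ U, ∑ a ∈ range (p ^ 2), f p a = 0 := Finset.prod_eq_zero hpU h0
    rw [h1, mul_zero]

theorem er_choose {s r : ℕ} (hr : 1 ≤ r) (h : 2 * r ≤ s) :
    ((s : ℝ) / (2 * r)) ^ r ≤ (s.choose r : ℝ) := by
  have h1 : (((s + 1 - r : ℕ)) : ℝ) ^ r ≤ (r.factorial : ℝ) * (s.choose r : ℝ) := by
    have := Nat.pow_le_choose (α := ℝ) r s
    rw [div_le_iff₀ (by exact_mod_cast Nat.factorial_pos r)] at this
    linarith
  have h2 : ((r.factorial : ℕ) : ℝ) ≤ (r : ℝ) ^ r := by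
    exact_mod_cast Nat.factorial_le_pow r
  have h3 : ((s : ℝ) / 2) ^ r ≤ (((s + 1 - r : ℕ)) : ℝ) ^ r := by
    apply pow_le_pow_left₀ (by positivity)
    rw [Nat.cast_sub (by omega)]
    have : (2 * (r : ℝ)) ≤ s := by exact_mod_cast h
    push_cast
    linarith
  have hr0 : (0 : ℝ) < (r : ℝ) ^ r := by positivity
  have h4 : ((s : ℝ) / (2 * r)) ^ r = ((s : ℝ) / 2) ^ r / (r : ℝ) ^ r := by
    rw [← div_pow]
    congr 1
    field_simp
  rw [h4, div_le_iff₀ hr0]
  calc ((s : ℝ) / 2) ^ r ≤ (((s + 1 - r : ℕ)) : ℝ) ^ r := h3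
    _ ≤ (r.factorial : ℝ) * (s.choose r : ℝ) := h1
    _ ≤ (r : ℝ) ^ r * (s.choose r : ℝ) := mul_le_mul_of_nonneg_right h2 (Nat.cast_nonneg _)
    _ = (s.choose r : ℝ) * (r : ℝ) ^ r := mul_comm _ _

/-- JOB ER. -/
theorem er : S_ER := by
  intro S E β X r M hS hE hβ hb hX hSX hr h2r hXM hbig
  have hs1 : 1 ≤ S.card := by omega
  have hX1 : 1 ≤ X := hs1.trans hSX
  set e : ℕ → ℝ := fun n => ∑ T ∈ powersetCard r S, ∏ p ∈ T, erg E p n with he
  set e0 : ℝ := ∑ T ∈ powersetCard r S, ∏ p ∈ T, erb E p with he0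
  set A := (range M).filter (fun n => ∀ p ∈ S, n % p ^ 2 ∉ E p) with hA
  set L : ℝ := ((S.card : ℝ) * β / (2 * r)) ^ r with hL
  have hr0 : (0 : ℝ) < r := by exact_mod_cast hr
  have hs0 : (0 : ℝ) < S.card := by exact_mod_cast hs1
  have hq : 1 ≤ (S.card : ℝ) * β / (2 * r) := by
    rw [one_le_div (by positivity)]
    exact hbig
  have hL1 : 1 ≤ L := one_le_pow₀ hq
  have hLe : L ≤ e0 := by
    have h1 : (S.card.choose r : ℝ) * β ^ r ≤ e0 := by
      have h2 : ∑ T ∈ powersetCard r S, β ^ r ≤ e0 := by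
        apply Finset.sum_le_sum
        intro T hT
        rw [mem_powersetCard] at hT
        rw [← hT.2, ← Finset.prod_const]
        exact Finset.prod_le_prod (fun _ _ => hβ.le) fun p hp => hb p (hT.1 hp)
      rw [Finset.sum_const, card_powersetCard, nsmul_eq_mul] at h2
      exact h2
    calc L = ((S.card : ℝ) / (2 * r)) ^ r * β ^ r := by
          rw [hL, ← mul_pow]; congr 1; ring
      _ ≤ (S.card.choose r : ℝ) * β ^ r :=
          mul_le_mul_of_nonneg_right (er_choose hr h2r) (by positivity)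
      _ ≤ e0 := h1
  have he01 : 1 ≤ e0 := hL1.trans hLe
  have hval : ∀ n ∈ A, e n = e0 := by
    intro n hn
    rw [hA, mem_filter] at hn
    refine Finset.sum_congr rfl fun T hT => Finset.prod_congr rfl fun p hp => ?_
    rw [mem_powersetCard] at hT
    unfold erg
    rw [if_neg (hn.2 p (hT.1 hp)), sub_zero]
  have hlow : (A.card : ℝ) * e0 ^ 2 ≤ ∑ n ∈ range M, e n ^ 2 := by
    calc (A.card : ℝ) * e0 ^ 2 = ∑ n ∈ A, e0 ^ 2 := by
          rw [Finset.sum_const, nsmul_eq_mul]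
      _ = ∑ n ∈ A, e n ^ 2 := Finset.sum_congr rfl fun n hn => by rw [hval n hn]
      _ ≤ ∑ n ∈ range M, e n ^ 2 :=
          Finset.sum_le_sum_of_subset_of_nonneg (Finset.filter_subset _ _)
            fun n _ _ => sq_nonneg _
  have hup : ∑ n ∈ range M, e n ^ 2 ≤ 2 * (M : ℝ) * e0 := by
    have h1 : ∑ n ∈ range M, e n ^ 2 = ∑ T ∈ powersetCard r S, ∑ T' ∈ powersetCard r S,
        ∑ n ∈ range M, (∏ p ∈ T, erg E p n) * ∏ p ∈ T', erg E p n := by
      have h2 : ∀ n, e n ^ 2 = ∑ T ∈ powersetCard r S, ∑ T' ∈ powersetCard r S,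
          (∏ p ∈ T, erg E p n) * ∏ p ∈ T', erg E p n := by
        intro n
        rw [sq, he]
        simp only
        rw [Finset.sum_mul_sum]
      simp_rw [h2]
      rw [Finset.sum_comm]
      refine Finset.sum_congr rfl fun T _ => ?_
      rw [Finset.sum_comm]
    rw [h1]
    have h3 : ∑ T ∈ powersetCard r S, ∑ T' ∈ powersetCard r S,
        ∑ n ∈ range M, (∏ p ∈ T, erg E p n) * ∏ p ∈ T', erg E p n ≤
        ∑ T ∈ powersetCard r S, ∑ T' ∈ powersetCard r S,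
          ((if T = T' then (M : ℝ) * ∏ p ∈ T, erb E p else 0) + (X : ℝ) ^ (4 * r)) :=
      Finset.sum_le_sum fun T hT => Finset.sum_le_sum fun T' hT' =>
        er_pair hS hE hX hX1 M hT hT'
    refine h3.trans ?_
    have h4 : ∑ T ∈ powersetCard r S, ∑ T' ∈ powersetCard r S,
          ((if T = T' then (M : ℝ) * ∏ p ∈ T, erb E p else 0) + (X : ℝ) ^ (4 * r)) =
        (M : ℝ) * e0 + (S.card.choose r : ℝ) * ((S.card.choose r : ℝ) * (X : ℝ) ^ (4 * r)) := by
      simp_rw [Finset.sum_add_distrib, Finset.sum_const, card_powersetCard, nsmul_eq_mul]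
      congr 1
      rw [he0, Finset.mul_sum]
      refine Finset.sum_congr rfl fun T hT => ?_
      rw [Finset.sum_ite_eq, if_pos hT]
    rw [h4]
    have h5 : (S.card.choose r : ℝ) ≤ (X : ℝ) ^ r := by
      have : S.card.choose r ≤ X ^ r := (Nat.choose_le_pow _ _).trans (Nat.pow_le_pow_left hSX r)
      exact_mod_cast this
    have h6 : (S.card.choose r : ℝ) * ((S.card.choose r : ℝ) * (X : ℝ) ^ (4 * r)) ≤ (M : ℝ) := by
      calc (S.card.choose r : ℝ) * ((S.card.choose r : ℝ) * (X : ℝ) ^ (4 * r))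
          ≤ (X : ℝ) ^ r * ((X : ℝ) ^ r * (X : ℝ) ^ (4 * r)) := by gcongr
        _ = (X : ℝ) ^ (6 * r) := by rw [← pow_add, ← pow_add]; congr 1; ring
        _ ≤ (M : ℝ) := by exact_mod_cast hXM
    have h7 : (M : ℝ) ≤ M * e0 := le_mul_of_one_le_right (Nat.cast_nonneg _) he01
    linarith
  have hA2 : (A.card : ℝ) * e0 ≤ 2 * (M : ℝ) := by
    have h1 := hlow.trans hup
    have h2 : (A.card : ℝ) * e0 * e0 ≤ 2 * (M : ℝ) * e0 := by
      calc (A.card : ℝ) * e0 * e0 = (A.card : ℝ) * e0 ^ 2 := by ring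
        _ ≤ _ := h1
    exact le_of_mul_le_mul_right h2 (by linarith)
  have hfin : (A.card : ℝ) * L ≤ 2 * (M : ℝ) :=
    (mul_le_mul_of_nonneg_left hLe (Nat.cast_nonneg _)).trans hA2
  have hLpos : 0 < L := by linarith
  have hinv : (2 * (r : ℝ) / (S.card * β)) ^ r = 1 / L := by
    rw [hL, one_div, ← inv_pow, inv_div]
  rw [hinv, mul_one_div, le_div_iff₀ hLpos]
  exact hfin


end Pool.Agent.H31.SQ
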