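import Pool.Agent.H31.SQ.Stm5

set_option autoImplicit false

open Finset Filter Topology

namespace Pool.Agent.H31.SQ

open Pool.Agent.H324.SQ Pool.Agent.Helper530.Sq.SqFAsm

/-- `(2 ^ Y) ^ (-(1 / l)) = 1 / 2 ^ W` if `Y = l W` -/
theorem rpow_D (l W : ℕ) (hl : 1 ≤ l) :
    (((2 ^ (l * W) : ℕ) : ℝ)) ^ (-(1 / (l : ℝ))) = 1 / 2 ^ W := by
  have hl0 : (l : ℝ) ≠ 0 := by
    have : 0 < l := hl
    exact_mod_cast this.ne'
  push_cast
  rw [← Real.rpow_natCast 2 (l * W), ← Real.rpow_mul (by norm_num)]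
  have h1 : ((l * W : ℕ) : ℝ) * (-(1 / (l : ℝ))) = -(W : ℝ) := by
    push_cast
    field_simp
  rw [h1, Real.rpow_neg (by norm_num), Real.rpow_natCast, one_div]

/-- `z ^ (1 / l - 1) ≤ 8 / z` if `z ≤ 2 ^ (3 l)` -/
theorem rpow_z (l z : ℕ) (hl : 1 ≤ l) (hz : 1 ≤ z) (hz2 : z ≤ 2 ^ (3 * l)) :
    (z : ℝ) ^ (1 / (l : ℝ) - 1) ≤ 8 / z := by
  have hl0 : (0 : ℝ) < (l : ℝ) := by
    have : 0 < l := hl
    exact_mod_cast this
  have hz0 : (0 : ℝ) < z := by
    have : 0 < z := hz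
    exact_mod_cast this
  rw [Real.rpow_sub_one hz0.ne']
  apply div_le_div_of_nonneg_right _ hz0.le
  have h1 : (z : ℝ) ≤ (2 : ℝ) ^ (3 * l) := by exact_mod_cast hz2
  calc (z : ℝ) ^ (1 / (l : ℝ)) ≤ ((2 : ℝ) ^ (3 * l)) ^ (1 / (l : ℝ)) :=
        Real.rpow_le_rpow hz0.le h1 (by positivity)
    _ = 8 := by
        rw [← Real.rpow_natCast 2 (3 * l), ← Real.rpow_mul (by norm_num)]
        have h2 : ((3 * l : ℕ) : ℝ) * (1 / (l : ℝ)) = 3 := by
          push_cast
          field_simp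
        rw [h2]
        norm_num

theorem exp_nat_le (n : ℕ) : Real.exp (n : ℝ) ≤ 2 ^ (2 * n) := by
  have h1 : Real.exp (n : ℝ) = Real.exp 1 ^ n := by
    rw [← Real.exp_nat_mul, mul_one]
  rw [h1, pow_mul]
  apply pow_le_pow_left₀ (Real.exp_pos _).le
  have := Real.exp_one_lt_d9
  linarith

theorem fixh5 (hF : S_FIX4) : S_FIXH5 := by
  intro m
  obtain ⟨S1, hS1⟩ := growth (KK m) 2
  refine ⟨2 ^ (S1 + 2 * m + 3), ?_⟩
  intro h hh k hk q hq a
  obtain ⟨l, hl⟩ : ∃ l, l = lam h := ⟨_, rfl⟩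
  have hlS : S1 + 2 * m + 3 ≤ l := by rw [hl]; exact lam_ge _ _ hh
  have hhl : h < 2 ^ l := by rw [hl]; exact lam_lt h
  rw [← hl] at hk ⊢
  obtain ⟨K, hKd⟩ : ∃ K, K = KK m := ⟨_, rfl⟩
  rw [← hKd] at hS1 hk
  have hK1 : 1 ≤ K := by rw [hKd]; unfold KK; omega
  have hh1 : 1 ≤ h := le_trans Nat.one_le_two_pow hh
  have hl1 : 1 ≤ l := by omega
  obtain ⟨z, hz⟩ : ∃ z, z = K * h * l ^ 2 := ⟨_, rfl⟩
  rw [← hz] at hk
  have hz1 : 1 ≤ z := by
    rw [hz]
    exact Nat.mul_pos (Nat.mul_pos hK1 hh1) (pow_pos (by omega) 2)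
  have hz3 : z ≤ 2 ^ (3 * l) := by
    have h1 : K * l ^ 2 ≤ 4 ^ l := by
      refine le_trans ?_ (hS1 l (by omega))
      exact Nat.mul_le_mul_left _ (Nat.pow_le_pow_left (by omega) 2)
    calc z = (K * l ^ 2) * h := by rw [hz]; ring
      _ ≤ 4 ^ l * 2 ^ l := Nat.mul_le_mul h1 hhl.le
      _ = 2 ^ (3 * l) := by
          rw [show (4 : ℕ) = 2 ^ 2 by norm_num, ← pow_mul, ← pow_add]
          congr 1
          ring
  obtain ⟨J, hJ⟩ : ∃ J, J = 2 * m * h := ⟨_, rfl⟩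
  obtain ⟨W, hW⟩ : ∃ W, W = A1 m * (h * l ^ 2) := ⟨_, rfl⟩
  obtain ⟨Y, hY⟩ : ∃ Y, Y = l * W := ⟨_, rfl⟩
  have hYW : Y = A1 m * (h * l ^ 3) := by rw [hY, hW]; ring
  obtain ⟨X, hX⟩ : ∃ X, X = h * l ^ 3 := ⟨_, rfl⟩
  have hX1 : 1 ≤ X := by
    rw [hX]
    exact Nat.mul_pos hh1 (pow_pos (by omega) 3)
  have hhX : h ≤ X := by
    rw [hX]
    exact Nat.le_mul_of_pos_right _ (pow_pos (by omega) 3)
  have hlX : l ≤ X := by
    rw [hX]
    calc l ≤ l ^ 3 := Nat.le_self_pow (by norm_num) l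
      _ ≤ h * l ^ 3 := Nat.le_mul_of_pos_left _ hh1
  have hJX : J ≤ 2 * m * X := by rw [hJ]; exact Nat.mul_le_mul_left _ hhX
  have hA1d : A1 m = 32 * K + 2 * m + 9 := by unfold A1; rw [hKd]
  have hA5 : (1 + 13 * K + 4 * A1 m + 4 + (2 * m + 9)) ≤ A5 m := by
    unfold A5; rw [← hKd]; omega
  have hYX : Y = A1 m * X := by rw [hYW, hX]
  rw [← hX]
  have hJR : (0 : ℝ) < 2 ^ (J + 2) := by positivity
  have hkR : (k : ℝ) ≤ 2 ^ (6 * l) := by
    have h1 : k ≤ 2 ^ (6 * l) := by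
      refine hk.le.trans ?_
      calc z ^ 2 ≤ (2 ^ (3 * l)) ^ 2 := Nat.pow_le_pow_left hz3 2
        _ = 2 ^ (6 * l) := by rw [← pow_mul]; congr 1; ring
    exact_mod_cast h1
  have hp1 : (1 : ℝ) ≤ 2 ^ (6 * l) := one_le_pow₀ (by norm_num)
  have e6X : 6 * l + J + 6 ≤ (2 * m + 9 + 3) * X := by nlinarith
  by_cases hq9 : q ≤ 2 ^ X
  · obtain ⟨L, hL⟩ := hF k z (2 ^ Y) (2 ^ Y) q a (1 / (l : ℝ))
      (by
        have : (0 : ℝ) < (l : ℝ) := by exact_mod_cast hl1
        positivity)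
      (by
        have : (2 : ℝ) ≤ (l : ℝ) := by
          have : 2 ≤ l := by omega
          exact_mod_cast this
        exact one_div_le_one_div_of_le (by norm_num) this)
      hq hz1 (hk.trans_le (Nat.pow_le_pow_left (Nat.le_succ _) 2))
      (by
        refine hz3.trans (Nat.pow_le_pow_right (by norm_num) ?_)
        rw [hYX, hA1d]
        nlinarith)
      Nat.one_le_two_pow
    refine ⟨L, fun M hM => ?_⟩
    have hM1 : 1 ≤ M := le_trans Nat.one_le_two_pow hM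
    have hc : (2 ^ Y * 2 ^ Y) ^ 2 ≤ M := by
      refine le_trans ?_ hM
      rw [← pow_add, ← pow_mul]
      apply Nat.pow_le_pow_right (by norm_num)
      calc (Y + Y) * 2 = 4 * A1 m * X := by rw [hYX]; ring
        _ ≤ A5 m * X := Nat.mul_le_mul_right _ (by omega)
    refine (hL M hM1 hc).trans ?_
    have hMR : (2 : ℝ) ^ (A5 m * X) ≤ M := by exact_mod_cast hM
    have hM0 : (0 : ℝ) < M := by exact_mod_cast hM1
    -- (i)
    have t1 : (2 * k + 1 : ℝ) ≤ M / 2 ^ (J + 2) := by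
      rw [le_div_iff₀ hJR]
      calc (2 * k + 1 : ℝ) * 2 ^ (J + 2) ≤ (4 * 2 ^ (6 * l)) * 2 ^ (J + 2) := by
            apply mul_le_mul_of_nonneg_right _ hJR.le
            linarith
        _ = 2 ^ (6 * l + J + 4) := by ring
        _ ≤ 2 ^ (A5 m * X) := by
            apply pow_le_pow_right₀ (by norm_num)
            calc 6 * l + J + 4 ≤ (2 * m + 9 + 3) * X := by omega
              _ ≤ A5 m * X := Nat.mul_le_mul_right _ (by omega)
        _ ≤ M := hMR
    -- (ii)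
    have t2 : (2 * k * M / (((2 ^ Y : ℕ) : ℝ) + 1) : ℝ) ≤ M / 2 ^ (J + 2) := by
      rw [div_le_div_iff₀ (by positivity) hJR]
      have h1 : (2 * k : ℝ) * 2 ^ (J + 2) ≤ 2 ^ Y := by
        calc (2 * k : ℝ) * 2 ^ (J + 2) ≤ (2 * 2 ^ (6 * l)) * 2 ^ (J + 2) := by
              apply mul_le_mul_of_nonneg_right _ hJR.le
              linarith
          _ = 2 ^ (6 * l + J + 3) := by ring
          _ ≤ 2 ^ Y := by
              apply pow_le_pow_right₀ (by norm_num)
              rw [hYX, hA1d]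
              calc 6 * l + J + 3 ≤ (2 * m + 9 + 3) * X := by omega
                _ ≤ (32 * K + 2 * m + 9) * X := Nat.mul_le_mul_right _ (by omega)
      push_cast
      calc (2 * k * M : ℝ) * 2 ^ (J + 2) = M * ((2 * k : ℝ) * 2 ^ (J + 2)) := by ring
        _ ≤ M * (2 ^ Y) := mul_le_mul_of_nonneg_left h1 hM0.le
        _ ≤ M * (2 ^ Y + 1) := mul_le_mul_of_nonneg_left (by linarith) hM0.le
    -- (iii)
    have t3 : (2 * M * ((((2 ^ Y : ℕ) : ℝ)) ^ (-(1 / (l : ℝ))) *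
        Real.exp (2 * k * (z : ℝ) ^ (1 / (l : ℝ) - 1))) : ℝ) ≤ M / 2 ^ (J + 2) := by
      have a1 : (((2 ^ Y : ℕ) : ℝ)) ^ (-(1 / (l : ℝ))) = 1 / 2 ^ W := by
        rw [hY]
        exact rpow_D l W hl1
      have hz0 : (0 : ℝ) < z := by exact_mod_cast hz1
      have a2 : 2 * (k : ℝ) * (z : ℝ) ^ (1 / (l : ℝ) - 1) ≤ ((16 * z : ℕ) : ℝ) := by
        have b1 := rpow_z l z hl1 hz1 hz3
        have b2 : (k : ℝ) ≤ (z : ℝ) ^ 2 := by exact_mod_cast hk.le
        calc 2 * (k : ℝ) * (z : ℝ) ^ (1 / (l : ℝ) - 1) ≤ 2 * (z : ℝ) ^ 2 * (8 / z) := by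
              apply mul_le_mul (by linarith) b1 (by positivity) (by positivity)
          _ = ((16 * z : ℕ) : ℝ) := by
              push_cast
              field_simp
              ring
      have a3 : Real.exp (2 * k * (z : ℝ) ^ (1 / (l : ℝ) - 1)) ≤ 2 ^ (2 * (16 * z)) :=
        (Real.exp_le_exp.2 a2).trans (exp_nat_le _)
      rw [a1]
      have a4 : 2 * (16 * z) + (J + 3) ≤ W := by
        rw [hW, hA1d, hz, hJ]
        have b1 : h ≤ h * l ^ 2 := Nat.le_mul_of_pos_right _ (pow_pos (by omega) 2)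
        have b2 : 2 * m * h ≤ 2 * m * (h * l ^ 2) := Nat.mul_le_mul_left _ b1
        have b3 : 3 ≤ 3 * (h * l ^ 2) := by omega
        calc 2 * (16 * (K * h * l ^ 2)) + (2 * m * h + 3) ≤
              32 * K * (h * l ^ 2) + (2 * m * (h * l ^ 2) + 3 * (h * l ^ 2)) := by
                have b4 : 2 * (16 * (K * h * l ^ 2)) = 32 * K * (h * l ^ 2) := by ring
                omega
          _ = (32 * K + 2 * m + 3) * (h * l ^ 2) := by ring
          _ ≤ (32 * K + 2 * m + 9) * (h * l ^ 2) := Nat.mul_le_mul_right _ (by omega)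
      have a5 : (1 : ℝ) / 2 ^ W * 2 ^ (2 * (16 * z)) ≤ 1 / 2 ^ (J + 3) := by
        rw [div_mul_eq_mul_div, one_mul, div_le_div_iff₀ (by positivity) (by positivity), one_mul,
          ← pow_add]
        exact pow_le_pow_right₀ (by norm_num) a4
      calc (2 * M * (1 / 2 ^ W * Real.exp (2 * k * (z : ℝ) ^ (1 / (l : ℝ) - 1))) : ℝ) ≤
            2 * M * (1 / 2 ^ W * 2 ^ (2 * (16 * z))) := by
              apply mul_le_mul_of_nonneg_left _ (by positivity)
              exact mul_le_mul_of_nonneg_left a3 (by positivity)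
        _ ≤ 2 * M * (1 / 2 ^ (J + 3)) := mul_le_mul_of_nonneg_left a5 (by positivity)
        _ = M / 2 ^ (J + 2) := by
            rw [show J + 3 = (J + 2) + 1 from rfl, pow_succ]
            field_simp
    -- (iv)
    have t4n : q * ((k + 1) * (z + 1) ^ 2) ^ z * (2 ^ Y + 1) ^ 4 * 2 ^ (J + 2) ≤
        2 ^ (A5 m * X) := by
      have a1 : (k + 1) * (z + 1) ^ 2 ≤ 2 ^ (13 * l) := by
        have b1 : k + 1 ≤ 2 ^ (6 * l) := by
          refine (Nat.succ_le_of_lt hk).trans ?_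
          calc z ^ 2 ≤ (2 ^ (3 * l)) ^ 2 := Nat.pow_le_pow_left hz3 2
            _ = 2 ^ (6 * l) := by rw [← pow_mul]; congr 1; ring
        have b2 : z + 1 ≤ 2 ^ (3 * l + 1) := by
          rw [pow_succ]
          omega
        calc (k + 1) * (z + 1) ^ 2 ≤ 2 ^ (6 * l) * (2 ^ (3 * l + 1)) ^ 2 :=
              Nat.mul_le_mul b1 (Nat.pow_le_pow_left b2 2)
          _ = 2 ^ (12 * l + 2) := by rw [← pow_mul, ← pow_add]; congr 1; ring
          _ ≤ 2 ^ (13 * l) := Nat.pow_le_pow_right (by norm_num) (by omega)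
      have a2 : ((k + 1) * (z + 1) ^ 2) ^ z ≤ 2 ^ (13 * K * X) := by
        calc ((k + 1) * (z + 1) ^ 2) ^ z ≤ (2 ^ (13 * l)) ^ z := Nat.pow_le_pow_left a1 z
          _ = 2 ^ (13 * K * X) := by
              rw [← pow_mul, hz, hX]
              congr 1
              ring
      have a3 : (2 ^ Y + 1) ^ 4 ≤ 2 ^ ((4 * A1 m + 4) * X) := by
        have b1 : 2 ^ Y + 1 ≤ 2 ^ (Y + 1) := by
          have : 1 ≤ 2 ^ Y := Nat.one_le_two_pow
          rw [pow_succ]
          omega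
        calc (2 ^ Y + 1) ^ 4 ≤ (2 ^ (Y + 1)) ^ 4 := Nat.pow_le_pow_left b1 4
          _ = 2 ^ (4 * Y + 4) := by rw [← pow_mul]; congr 1; ring
          _ ≤ 2 ^ ((4 * A1 m + 4) * X) := by
              apply Nat.pow_le_pow_right (by norm_num)
              rw [hYX]
              calc 4 * (A1 m * X) + 4 ≤ 4 * (A1 m * X) + 4 * X := by omega
                _ = (4 * A1 m + 4) * X := by ring
      have a4 : J + 2 ≤ (2 * m + 9) * X := by
        calc J + 2 ≤ 2 * m * X + 9 * X := by omega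
          _ = (2 * m + 9) * X := by ring
      calc q * ((k + 1) * (z + 1) ^ 2) ^ z * (2 ^ Y + 1) ^ 4 * 2 ^ (J + 2) ≤
            2 ^ X * 2 ^ (13 * K * X) * 2 ^ ((4 * A1 m + 4) * X) * 2 ^ ((2 * m + 9) * X) := by
            apply Nat.mul_le_mul
            · apply Nat.mul_le_mul
              · exact Nat.mul_le_mul hq9 a2
              · exact a3
            · exact Nat.pow_le_pow_right (by norm_num) a4
        _ = 2 ^ ((1 + 13 * K + 4 * A1 m + 4 + (2 * m + 9)) * X) := by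
            rw [← pow_add, ← pow_add, ← pow_add]
            congr 1
            ring
        _ ≤ 2 ^ (A5 m * X) := by
            apply Nat.pow_le_pow_right (by norm_num)
            exact Nat.mul_le_mul_right _ hA5
    have t4 : ((q * ((k + 1) * (z + 1) ^ 2) ^ z * (2 ^ Y + 1) ^ 4 : ℕ) : ℝ)
        ≤ M / 2 ^ (J + 2) := by
      rw [le_div_iff₀ hJR]
      have := t4n.trans hM
      exact_mod_cast this
    have hfin : (M : ℝ) / 2 ^ (2 * m * h) = 4 * (M / 2 ^ (J + 2)) := by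
      rw [← hJ, pow_add]
      field_simp
      norm_num
    rw [hfin]
    linarith
  · push Not at hq9
    refine ⟨0, fun M hM => ?_⟩
    have hM1 : 1 ≤ M := le_trans Nat.one_le_two_pow hM
    have hM0 : (0 : ℝ) < M := by exact_mod_cast hM1
    have hMR : (2 : ℝ) ^ (A5 m * X) ≤ M := by exact_mod_cast hM
    have hJX2 : J + 1 ≤ X := by
      have h1 : 2 * m + 1 ≤ l ^ 3 := by
        refine le_trans ?_ (Nat.le_self_pow (by norm_num) l)
        omega
      calc J + 1 ≤ (2 * m + 1) * h := by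
            rw [hJ, add_mul, one_mul]
            omega
        _ ≤ l ^ 3 * h := Nat.mul_le_mul_right _ h1
        _ = X := by rw [hX]; ring
    rw [zero_mul, sub_zero, abs_of_nonneg (Nat.cast_nonneg _)]
    have h1 : cnt k q a M ≤ M / q + 1 := by
      refine le_trans ?_ (card_res q a M hq)
      unfold cnt
      apply card_le_card
      intro n hn
      rw [mem_filter] at hn ⊢
      exact ⟨hn.1, hn.2.1⟩
    have h2 : (cnt k q a M : ℝ) ≤ (M : ℝ) / q + 1 := by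
      have h3 : (cnt k q a M : ℝ) ≤ ((M / q : ℕ) : ℝ) + 1 := by exact_mod_cast h1
      have h4 : ((M / q : ℕ) : ℝ) ≤ (M : ℝ) / q := Nat.cast_div_le
      linarith
    have h3 : (M : ℝ) / q ≤ M / 2 ^ (J + 1) := by
      apply div_le_div_of_nonneg_left hM0.le (by positivity)
      have h4 : (2 : ℝ) ^ X ≤ q := by exact_mod_cast hq9.le
      refine le_trans ?_ h4
      exact pow_le_pow_right₀ (by norm_num) hJX2
    have h4 : (1 : ℝ) ≤ M / 2 ^ (J + 1) := by
      rw [le_div_iff₀ (by positivity), one_mul]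
      refine le_trans ?_ hMR
      apply pow_le_pow_right₀ (by norm_num)
      refine hJX2.trans (Nat.le_mul_of_pos_left _ (by omega))
    have hfin : (M : ℝ) / 2 ^ (2 * m * h) = 2 * (M / 2 ^ (J + 1)) := by
      rw [← hJ, pow_succ]
      field_simp
    rw [hfin]
    linarith

end Pool.Agent.H31.SQ
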