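import Pool.Graph.R_seed8.H324.SQ.Main3
import Pool.Agent.H31.SQ.Core

set_option autoImplicit false

open Finset Filter Topology

namespace Pool.Agent.H31.SQ

open Pool.Agent.H324.SQ Pool.Agent.Helper530.Sq.SqFAsm

def S_FIX4 : Prop := ∀ (k z y D q a : ℕ) (σ : ℝ), 0 < σ → σ ≤ 1 / 2 → 0 < q → 1 ≤ z →
  k < (z + 1) ^ 2 → z ≤ y → 1 ≤ D →
  ∃ L : ℝ, ∀ M : ℕ, 1 ≤ M → (D * y) ^ 2 ≤ M →
  |(cnt k q a M : ℝ) - L * M| ≤ (2 * k + 1) + 2 * k * M / (y + 1) +
    2 * M * ((D : ℝ) ^ (-σ) * Real.exp (2 * k * (z : ℝ) ^ (σ - 1))) +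
    ((q * ((k + 1) * (z + 1) ^ 2) ^ z * (D + 1) ^ 4 : ℕ) : ℝ)

/-- the small primes condition -/
def RR (k z q a n : ℕ) : Prop :=
  n % q = a % q ∧ ∀ p ∈ (range (z + 1)).filter Nat.Prime, ¬ GG k p n

instance (k z q a : ℕ) : DecidablePred (RR k z q a) := fun n => by unfold RR; infer_instance

def BG (k z y n : ℕ) : Finset ℕ := (PR z y).filter (fun p => GG k p n)

def WW (k z : ℕ) : ℕ := ∏ p ∈ (range (z + 1)).filter Nat.Prime, p ^ (Nat.log p k + 2)

theorem WW_pos (k z : ℕ) : 0 < WW k z := by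
  unfold WW
  apply prod_pos
  intro p hp
  exact pow_pos (mem_filter.1 hp).2.pos _

theorem WW_le (k z : ℕ) : WW k z ≤ ((k + 1) * (z + 1) ^ 2) ^ z := by
  unfold WW
  have h1 : ∏ p ∈ (range (z + 1)).filter Nat.Prime, p ^ (Nat.log p k + 2) ≤
      ((k + 1) * (z + 1) ^ 2) ^ ((range (z + 1)).filter Nat.Prime).card := by
    apply prod_le_pow_card
    intro p hp
    rw [mem_filter, mem_range] at hp
    rw [pow_add]
    apply Nat.mul_le_mul
    · rcases Nat.eq_zero_or_pos k with h | h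
      · subst h; simp
      · exact (Nat.pow_log_le_self p (by omega)).trans (Nat.le_succ _)
    · exact Nat.pow_le_pow_left (by omega) 2
  refine h1.trans ?_
  apply Nat.pow_le_pow_right (by positivity)
  have h2 : (range (z + 1)).filter Nat.Prime ⊆ Ioc 0 z := by
    intro p hp
    rw [mem_filter, mem_range] at hp
    rw [mem_Ioc]
    exact ⟨hp.2.pos, by omega⟩
  have := card_le_card h2
  rw [Nat.card_Ioc] at this
  omega

theorem RR_per (hK : S_KUM) (k z q a n m : ℕ) :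
    RR k z q a (n + q * WW k z * m) ↔ RR k z q a n := by
  unfold RR
  refine and_congr ?_ ?_
  · rw [mul_assoc, Nat.add_mul_mod_self_left]
  · refine forall₂_congr fun p hp => ?_
    have h1 : p ^ (Nat.log p k + 2) ∣ WW k z :=
      Finset.dvd_prod_of_mem (fun p => p ^ (Nat.log p k + 2)) hp
    obtain ⟨c, hc⟩ := h1
    rw [show n + q * WW k z * m = n + p ^ (Nat.log p k + 2) * (q * c * m) by rw [hc]; ring,
      hK.1]

theorem GG_per3 (hK : S_KUM) (k p n m : ℕ) (hp : p.Prime) (hk : k < p ^ 2) :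
    GG k p (n + p ^ 3 * m) ↔ GG k p n := by
  have h1 : Nat.log p k + 2 ≤ 3 := by
    have : Nat.log p k < 2 := Nat.log_lt_of_lt_pow' (by norm_num) hk
    omega
  have h2 : p ^ (Nat.log p k + 2) ∣ p ^ 3 := pow_dvd_pow p h1
  obtain ⟨c, hc⟩ := h2
  rw [show n + p ^ 3 * m = n + p ^ (Nat.log p k + 2) * (c * m) by rw [hc]; ring, hK.1]

theorem PR_lt {k z y p : ℕ} (hkz : k < (z + 1) ^ 2) (h : p ∈ PR z y) : k < p ^ 2 :=
  lt_of_lt_of_le hkz (Nat.pow_le_pow_left (PR_mem h).1 2)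

theorem fT4_per (hK : S_KUM) (k z y q a : ℕ) (hkz : k < (z + 1) ^ 2) (T : Finset ℕ)
    (hT : T ⊆ PR z y) (n : ℕ) :
    (RR k z q a (n + q * WW k z * ∏ p ∈ T, p ^ 3) ∧
      ∀ p ∈ T, GG k p (n + q * WW k z * ∏ p ∈ T, p ^ 3)) ↔
    (RR k z q a n ∧ ∀ p ∈ T, GG k p n) := by
  refine and_congr (RR_per hK k z q a n _) ?_
  refine forall₂_congr fun p hp => ?_
  have h1 : p ^ 3 ∣ q * WW k z * ∏ p ∈ T, p ^ 3 :=
    (Finset.dvd_prod_of_mem (fun p => p ^ 3) hp).mul_left _
  obtain ⟨c, hc⟩ := h1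
  rw [hc]
  exact GG_per3 hK k p n c (PR_mem (hT hp)).2.2 (PR_lt hkz (hT hp))

/-- pointwise approximation -/
theorem chi4 (hK : S_KUM) (hT : S_TRUNC) (k z y D q a M n : ℕ) (hkz : k < (z + 1) ^ 2)
    (hz : 1 ≤ z) (hD : 1 ≤ D) (hn : n < M) :
    |(if n % q = a % q ∧ 2 * k < n ∧ Squarefree (n.choose k) then (1 : ℝ) else 0) -
      (if RR k z q a n then ∑ T ∈ (BG k z y n).powerset.filter (fun T => ∏ p ∈ T, p ≤ D),
        (-1 : ℝ) ^ T.card else 0)| ≤
    ((if n < 2 * k + 1 then (1 : ℝ) else 0) +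
      (if ∃ d ∈ Ioo y M, ∃ i < k, i < n ∧ d ^ 2 ∣ n - i then (1 : ℝ) else 0)) +
      (((BG k z y n).powerset.filter (fun T => D < ∏ p ∈ T, p ∧ ∏ p ∈ T, p ≤ D * y)).card : ℝ) := by
  classical
  set χ : ℝ := (if n % q = a % q ∧ 2 * k < n ∧ Squarefree (n.choose k) then (1 : ℝ) else 0) with hχ
  set A : ℝ := ((if n < 2 * k + 1 then (1 : ℝ) else 0) +
      (if ∃ d ∈ Ioo y M, ∃ i < k, i < n ∧ d ^ 2 ∣ n - i then (1 : ℝ) else 0)) with hA
  have hA0 : 0 ≤ A := by rw [hA]; positivity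
  have hsum := hT (BG k z y n) y (fun p hp => by
    have := PR_mem (mem_filter.1 hp).1
    exact ⟨this.2.2.two_le, this.2.1⟩) D hD
  set Sm : ℝ := ∑ T ∈ (BG k z y n).powerset.filter (fun T => ∏ p ∈ T, p ≤ D),
        (-1 : ℝ) ^ T.card with hSm
  set Cm : ℝ := (((BG k z y n).powerset.filter
    (fun T => D < ∏ p ∈ T, p ∧ ∏ p ∈ T, p ≤ D * y)).card : ℝ) with hCm
  have hC0 : 0 ≤ Cm := Nat.cast_nonneg _
  have hkey : |χ - (if RR k z q a n then (if BG k z y n = ∅ then (1 : ℝ) else 0) else 0)| ≤ A := by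
    by_cases h1 : n < 2 * k + 1
    · have hA1 : 1 ≤ A := by
        rw [hA, if_pos h1]
        have : (0 : ℝ) ≤ (if ∃ d ∈ Ioo y M, ∃ i < k, i < n ∧ d ^ 2 ∣ n - i then (1 : ℝ) else 0) := by
          positivity
        linarith
      refine le_trans ?_ hA1
      rw [hχ]
      split_ifs <;> norm_num
    by_cases h2 : ∃ d ∈ Ioo y M, ∃ i < k, i < n ∧ d ^ 2 ∣ n - i
    · have hA1 : 1 ≤ A := by
        rw [hA, if_pos h2]
        have : (0 : ℝ) ≤ (if n < 2 * k + 1 then (1 : ℝ) else 0) := by positivity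
        linarith
      refine le_trans ?_ hA1
      rw [hχ]
      split_ifs <;> norm_num
    have h3 : (n % q = a % q ∧ 2 * k < n ∧ Squarefree (n.choose k)) ↔
        (RR k z q a n ∧ BG k z y n = ∅) := by
      have hkn : 2 * k < n := by omega
      have hkn' : k ≤ n := by omega
      constructor
      · rintro ⟨e1, -, e2⟩
        have e3 : ∀ p : ℕ, p.Prime → ¬ GG k p n := by
          intro p hp hG
          have := (hK.2.1 k p n hp hkn').2 hG
          exact (Nat.squarefree_iff_prime_squarefree.1 e2) p hp (by rw [← pow_two]; exact this)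
        refine ⟨⟨e1, fun p hp => e3 p (mem_filter.1 hp).2⟩, ?_⟩
        rw [eq_empty_iff_forall_notMem]
        intro p hp
        have h4 := mem_filter.1 hp
        exact e3 p (PR_mem h4.1).2.2 h4.2
      · rintro ⟨⟨e1, e2⟩, e3⟩
        refine ⟨e1, hkn, ?_⟩
        by_contra hns
        rw [Nat.squarefree_iff_prime_squarefree] at hns
        push Not at hns
        obtain ⟨p, hp, hpd⟩ := hns
        have hG : GG k p n := (hK.2.1 k p n hp hkn').1 (by rw [pow_two]; exact hpd)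
        have hzp : z < p := by
          by_contra hcon
          exact e2 p (by rw [Finset.mem_filter, Finset.mem_range]; exact ⟨by omega, hp⟩) hG
        by_cases hpy : p ≤ y
        · rw [eq_empty_iff_forall_notMem] at e3
          apply e3 p
          unfold BG PR
          rw [mem_filter, mem_filter, mem_Ioc]
          exact ⟨⟨⟨hzp, hpy⟩, hp⟩, hG⟩
        · have hkp : k < p ^ 2 := lt_of_lt_of_le hkz (Nat.pow_le_pow_left hzp 2)
          have hi := hK.2.2 k p n hp hkp hG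
          have hi2 : p ^ 2 ∣ n - n % p ^ 2 := Nat.dvd_sub_mod n
          have hlt : p < M := by
            have h4 := Nat.le_of_dvd (by omega) hi2
            have h5 : p ≤ p ^ 2 := Nat.le_self_pow (by norm_num) p
            exact lt_of_le_of_lt (h5.trans (h4.trans (Nat.sub_le _ _))) hn
          exact h2 ⟨p, Finset.mem_Ioo.2 ⟨by omega, hlt⟩, n % p ^ 2, hi, by omega, hi2⟩
    have h4 : χ = (if RR k z q a n then (if BG k z y n = ∅ then (1 : ℝ) else 0) else 0) := by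
      rw [hχ]
      by_cases h5 : RR k z q a n
      · rw [if_pos h5]
        by_cases h6 : BG k z y n = ∅
        · rw [if_pos h6, if_pos (h3.2 ⟨h5, h6⟩)]
        · rw [if_neg h6, if_neg (fun h => h6 (h3.1 h).2)]
      · rw [if_neg h5, if_neg (fun h => h5 (h3.1 h).1)]
    rw [h4, sub_self, abs_zero]
    exact hA0
  by_cases h5 : RR k z q a n
  · rw [if_pos h5] at hkey ⊢
    calc |χ - Sm| = |(χ - (if BG k z y n = ∅ then (1 : ℝ) else 0)) +
          ((if BG k z y n = ∅ then (1 : ℝ) else 0) - Sm)| := by ring_nf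
      _ ≤ |χ - (if BG k z y n = ∅ then (1 : ℝ) else 0)| +
          |(if BG k z y n = ∅ then (1 : ℝ) else 0) - Sm| := abs_add_le _ _
      _ ≤ A + Cm := add_le_add hkey hsum
  · rw [if_neg h5] at hkey ⊢
    linarith

/-- the family of the sets of primes with product at most `D` -/
theorem card_fam (z y D : ℕ) :
    ((PR z y).powerset.filter (fun T => ∏ p ∈ T, p ≤ D)).card ≤ D + 1 := by
  rw [← card_range (D + 1)]
  apply card_le_card_of_injOn (fun T => ∏ p ∈ T, p)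
  · intro T hT
    have := (mem_filter.1 (mem_coe.1 hT)).2
    rw [mem_coe, mem_range]
    exact Nat.lt_succ_of_le this
  · intro T hT T' hT' he
    have h1 := mem_powerset.1 (mem_filter.1 (mem_coe.1 hT)).1
    have h2 := mem_powerset.1 (mem_filter.1 (mem_coe.1 hT')).1
    rw [← Nat.primeFactors_prod (fun p hp => (PR_mem (h1 hp)).2.2),
      ← Nat.primeFactors_prod (fun p hp => (PR_mem (h2 hp)).2.2)]
    exact congrArg Nat.primeFactors he

theorem fam_filter (k z y n : ℕ) (Pd : Finset ℕ → Prop) [DecidablePred Pd] :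
    (BG k z y n).powerset.filter Pd =
      ((PR z y).powerset.filter Pd).filter (fun T => ∀ p ∈ T, GG k p n) := by
  ext T
  rw [mem_filter, mem_filter, mem_filter, mem_powerset, mem_powerset]
  unfold BG
  constructor
  · rintro ⟨h1, h2⟩
    exact ⟨⟨h1.trans (filter_subset _ _), h2⟩, fun p hp => (mem_filter.1 (h1 hp)).2⟩
  · rintro ⟨⟨h1, h2⟩, h3⟩
    exact ⟨fun p hp => mem_filter.2 ⟨h1 hp, h3 p hp⟩, h2⟩

/-- the sum of the approximant -/
theorem sum_u4 (hK : S_KUM) (k z y D q a : ℕ) (hq : 0 < q) (hkz : k < (z + 1) ^ 2) :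
    ∃ L : ℝ, ∀ M : ℕ,
    |(∑ n ∈ range M, (if RR k z q a n then
      ∑ T ∈ (BG k z y n).powerset.filter (fun T => ∏ p ∈ T, p ≤ D),
        (-1 : ℝ) ^ T.card else 0)) - L * M| ≤
      ((q * ((k + 1) * (z + 1) ^ 2) ^ z * (D + 1) ^ 4 : ℕ) : ℝ) := by
  classical
  set Q0 : ℕ := q * WW k z with hQ0
  have hQ0pos : 0 < Q0 := Nat.mul_pos hq (WW_pos k z)
  set FF := (PR z y).powerset.filter (fun T => ∏ p ∈ T, p ≤ D) with hFF
  let fT : Finset ℕ → ℕ → Prop := fun T n => RR k z q a n ∧ ∀ p ∈ T, GG k p n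
  let PT : Finset ℕ → ℕ := fun T => Q0 * ∏ p ∈ T, p ^ 3
  refine ⟨∑ T ∈ FF, (-1 : ℝ) ^ T.card * ((Nat.count (fT T) (PT T) : ℝ) / (PT T : ℝ)),
    fun M => ?_⟩
  have e1 : ∀ n, (if RR k z q a n then
      ∑ T ∈ (BG k z y n).powerset.filter (fun T => ∏ p ∈ T, p ≤ D), (-1 : ℝ) ^ T.card else 0) =
      ∑ T ∈ FF, (-1 : ℝ) ^ T.card * (if fT T n then (1 : ℝ) else 0) := by
    intro n
    by_cases hg : RR k z q a n
    · rw [if_pos hg, fam_filter, sum_filter]
      refine sum_congr rfl fun T _ => ?_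
      by_cases h2 : ∀ p ∈ T, GG k p n
      · rw [if_pos h2, if_pos (show fT T n from ⟨hg, h2⟩), mul_one]
      · rw [if_neg h2, if_neg (show ¬ fT T n from fun h => h2 h.2), mul_zero]
    · rw [if_neg hg]
      symm
      apply sum_eq_zero
      intro T _
      rw [if_neg (show ¬ fT T n from fun h => hg h.1), mul_zero]
  simp_rw [e1]
  rw [sum_comm]
  have e2 : ∀ T ∈ FF, ∑ n ∈ range M, (-1 : ℝ) ^ T.card * (if fT T n then (1 : ℝ) else 0) =
      (-1 : ℝ) ^ T.card * (((range M).filter (fT T)).card : ℝ) := by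
    intro T _
    rw [← mul_sum, ← sum_filter, sum_const, nsmul_eq_mul, mul_one]
  rw [sum_congr rfl e2, sum_mul, ← sum_sub_distrib]
  refine (abs_sum_le_sum_abs _ _).trans ?_
  have e3 : ∀ T ∈ FF, |(-1 : ℝ) ^ T.card * (((range M).filter (fT T)).card : ℝ) -
      (-1 : ℝ) ^ T.card * ((Nat.count (fT T) (PT T) : ℝ) / (PT T : ℝ)) * M| ≤
      ((Q0 * D ^ 3 : ℕ) : ℝ) := by
    intro T hT
    rw [hFF, mem_filter, mem_powerset] at hT
    rw [show (-1 : ℝ) ^ T.card * (((range M).filter (fT T)).card : ℝ) -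
      (-1 : ℝ) ^ T.card * ((Nat.count (fT T) (PT T) : ℝ) / (PT T : ℝ)) * M =
      (-1 : ℝ) ^ T.card * ((((range M).filter (fT T)).card : ℝ) -
        (Nat.count (fT T) (PT T) : ℝ) / (PT T : ℝ) * M) by ring, abs_mul, abs_pow, abs_neg,
      abs_one, one_pow, one_mul]
    have hPT : 0 < PT T := by
      apply Nat.mul_pos hQ0pos
      apply prod_pos
      intro p hp
      exact pow_pos (PR_mem (hT.1 hp)).2.2.pos 3
    refine (per_bound (fT T) (PT T) hPT (fun n => ?_) M).trans ?_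
    · exact fT4_per hK k z y q a hkz T hT.1 n
    · have h6 : ∏ p ∈ T, p ^ 3 ≤ D ^ 3 := by
        rw [prod_pow]
        exact Nat.pow_le_pow_left hT.2 3
      exact_mod_cast Nat.mul_le_mul_left Q0 h6
  refine (sum_le_sum e3).trans ?_
  rw [sum_const, nsmul_eq_mul]
  have h7 : FF.card ≤ D + 1 := card_fam z y D
  have h8 : FF.card * (Q0 * D ^ 3) ≤ q * ((k + 1) * (z + 1) ^ 2) ^ z * (D + 1) ^ 4 := by
    calc FF.card * (Q0 * D ^ 3) ≤ (D + 1) * ((q * ((k + 1) * (z + 1) ^ 2) ^ z) * (D + 1) ^ 3) := by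
          apply Nat.mul_le_mul h7
          apply Nat.mul_le_mul
          · exact Nat.mul_le_mul_left _ (WW_le k z)
          · exact Nat.pow_le_pow_left (Nat.le_succ _) 3
      _ = q * ((k + 1) * (z + 1) ^ 2) ^ z * (D + 1) ^ 4 := by ring
  exact_mod_cast h8

end Pool.Agent.H31.SQ
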