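import Pool.Agent.H31.SQ.Fx1

set_option autoImplicit false

open Finset Filter Topology

namespace Pool.Agent.H31.SQ

open Pool.Agent.H324.SQ Pool.Agent.Helper530.Sq.SqFAsm

/-- average of the remainder -/
theorem rem_avg (hK : S_KUM) (hR : S_RANK) (k z y D M : ℕ) (σ : ℝ) (hs : 0 < σ) (hs2 : σ ≤ 1 / 2)
    (hz : 1 ≤ z) (hkz : k < (z + 1) ^ 2) (hD : 1 ≤ D) (hM : (D * y) ^ 2 ≤ M) :
    ∑ n ∈ range M, (((BG k z y n).powerset.filter
      (fun T => D < ∏ p ∈ T, p ∧ ∏ p ∈ T, p ≤ D * y)).card : ℝ) ≤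
      2 * M * ((D : ℝ) ^ (-σ) * Real.exp (2 * k * (z : ℝ) ^ (σ - 1))) := by
  classical
  set FF := (PR z y).powerset.filter (fun T => D < ∏ p ∈ T, p ∧ ∏ p ∈ T, p ≤ D * y) with hFF
  have e1 : ∀ n, (((BG k z y n).powerset.filter
      (fun T => D < ∏ p ∈ T, p ∧ ∏ p ∈ T, p ≤ D * y)).card : ℝ) ≤
      ∑ T ∈ FF, ∏ p ∈ T, (if n % p ^ 2 < k then (1 : ℝ) else 0) := by
    intro n
    rw [fam_filter, ← hFF, card_filter]
    push_cast
    apply sum_le_sum
    intro T hT
    rw [hFF, mem_filter, mem_powerset] at hT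
    split_ifs with h
    · apply le_of_eq
      symm
      apply prod_eq_one
      intro p hp
      rw [if_pos (hK.2.2 k p n (PR_mem (hT.1 hp)).2.2 (PR_lt hkz (hT.1 hp)) (h p hp))]
    · apply prod_nonneg
      intro p _
      positivity
  refine (sum_le_sum fun n _ => e1 n).trans ?_
  rw [sum_comm]
  have e2 : ∀ T ∈ FF, ∑ n ∈ range M, ∏ p ∈ T, (if n % p ^ 2 < k then (1 : ℝ) else 0) ≤
        2 * M * ∏ p ∈ T, ((k : ℝ) / (p : ℝ) ^ 2) := by
    intro T hT
    rw [hFF, mem_filter, mem_powerset] at hT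
    have h1 := ind T (fun p hp => (PR_mem (hT.1 hp)).2.2)
      (fun p n => if n % p ^ 2 < k then (1 : ℝ) else 0) (fun p n => by positivity)
      (fun p n => by simp only [Nat.mod_mod]) M
    refine h1.trans ?_
    have hQpos : (0 : ℝ) < ((∏ p ∈ T, p ^ 2 : ℕ) : ℝ) := by
      have : 0 < ∏ p ∈ T, p ^ 2 := prod_pos fun p hp => pow_pos (PR_mem (hT.1 hp)).2.2.pos 2
      exact_mod_cast this
    have hQle : ((∏ p ∈ T, p ^ 2 : ℕ) : ℝ) ≤ M := by
      have h2 : ∏ p ∈ T, p ^ 2 ≤ (D * y) ^ 2 := by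
        rw [prod_pow]
        exact Nat.pow_le_pow_left hT.2.2 2
      exact_mod_cast h2.trans hM
    have h3 : (M : ℝ) / ((∏ p ∈ T, p ^ 2 : ℕ) : ℝ) + 1 ≤
        2 * M / ((∏ p ∈ T, p ^ 2 : ℕ) : ℝ) := by
      have : 1 ≤ (M : ℝ) / ((∏ p ∈ T, p ^ 2 : ℕ) : ℝ) := by rwa [one_le_div hQpos]
      rw [mul_div_assoc]
      linarith
    have h4 : ∏ p ∈ T, ∑ r ∈ range (p ^ 2), (if r % p ^ 2 < k then (1 : ℝ) else 0) ≤
        ∏ p ∈ T, (k : ℝ) := by
      apply Finset.prod_le_prod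
      · intro p _
        positivity
      · intro p _
        exact sum_residues k (p ^ 2)
    calc _ ≤ (2 * M / ((∏ p ∈ T, p ^ 2 : ℕ) : ℝ)) * ∏ p ∈ T, (k : ℝ) := by
          apply mul_le_mul h3 h4
          · apply prod_nonneg
            intro p _
            positivity
          · positivity
      _ = 2 * M * ∏ p ∈ T, ((k : ℝ) / (p : ℝ) ^ 2) := by
          rw [prod_div_distrib]
          push_cast
          ring
  refine (sum_le_sum e2).trans ?_
  rw [← mul_sum]
  apply mul_le_mul_of_nonneg_left _ (by positivity)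
  have h5 := hR (PR z y) k z y D σ hs hs2 hz hD (by unfold PR; exact filter_subset _ _)
  refine le_trans ?_ h5
  apply sum_le_sum_of_subset_of_nonneg
  · intro T hT
    rw [hFF, mem_filter] at hT
    rw [mem_filter]
    exact ⟨hT.1, hT.2.1⟩
  · intro T _ _
    apply prod_nonneg
    intro p _
    positivity

theorem fix4 (hK : S_KUM) (hR : S_RANK) (hT : S_TRUNC) : S_FIX4 := by
  classical
  intro k z y D q a σ hs hs2 hq hz hkz hzy hD
  obtain ⟨L, hL⟩ := sum_u4 hK k z y D q a hq hkz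
  refine ⟨L, fun M hM1 hM => ?_⟩
  have e1 : (cnt k q a M : ℝ) = ∑ n ∈ range M,
      (if n % q = a % q ∧ 2 * k < n ∧ Squarefree (n.choose k) then (1 : ℝ) else 0) := by
    unfold cnt
    rw [card_filter]
    push_cast
    rfl
  set U : ℕ → ℝ := fun n => (if RR k z q a n then
      ∑ T ∈ (BG k z y n).powerset.filter (fun T => ∏ p ∈ T, p ≤ D),
        (-1 : ℝ) ^ T.card else 0) with hU
  have h1 := hL M
  have h2 : |(cnt k q a M : ℝ) - ∑ n ∈ range M, U n| ≤
      (2 * k + 1) + 2 * k * M / (y + 1) +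
        2 * M * ((D : ℝ) ^ (-σ) * Real.exp (2 * k * (z : ℝ) ^ (σ - 1))) := by
    rw [e1, ← sum_sub_distrib]
    refine (abs_sum_le_sum_abs _ _).trans ?_
    refine (sum_le_sum fun n hn => chi4 hK hT k z y D q a M n hkz hz hD (mem_range.1 hn)).trans ?_
    rw [sum_add_distrib, sum_add_distrib]
    have b1 : ∑ n ∈ range M, (if n < 2 * k + 1 then (1 : ℝ) else 0) ≤ 2 * k + 1 := by
      have : ∑ n ∈ range M, (if n < 2 * k + 1 then (1 : ℝ) else 0) =
          (((range M).filter (fun n => n < 2 * k + 1)).card : ℝ) := by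
        rw [card_filter]; push_cast; rfl
      rw [this]
      have h3 : ((range M).filter (fun n => n < 2 * k + 1)) ⊆ range (2 * k + 1) := by
        intro r hr
        exact mem_range.2 (mem_filter.1 hr).2
      have h4 := card_le_card h3
      rw [card_range] at h4
      exact_mod_cast h4
    have b2 : ∑ n ∈ range M, (if ∃ d ∈ Ioo y M, ∃ i < k, i < n ∧ d ^ 2 ∣ n - i then (1 : ℝ) else 0)
        ≤ 2 * k * M / (y + 1) := by
      have h3 := bad_card y k M
      refine le_trans (le_of_eq ?_) h3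
      rw [card_filter]
      push_cast
      refine sum_congr rfl fun n _ => ?_
      congr
    have b3 := rem_avg hK hR k z y D M σ hs hs2 hz hkz hD hM
    linarith
  calc |(cnt k q a M : ℝ) - L * M| = |((cnt k q a M : ℝ) - ∑ n ∈ range M, U n) +
        (∑ n ∈ range M, U n - L * M)| := by ring_nf
    _ ≤ |(cnt k q a M : ℝ) - ∑ n ∈ range M, U n| + |∑ n ∈ range M, U n - L * M| := abs_add_le _ _
    _ ≤ _ := add_le_add h2 h1

end Pool.Agent.H31.SQ
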