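import Pool.Agent.H31.SQ.Fx1

set_option autoImplicit false

open Finset Filter Topology

namespace Pool.Agent.H31.SQ

open Pool.Agent.H324.SQ Pool.Agent.Helper530.Sq Pool.Agent.Helper530.Sq.RS

def S_KEY2 : Prop := ∀ (k P r M : ℕ) (L : ℝ), (P - 1) ^ 2 ≤ k → k < P ^ 2 → 7 ≤ P → 1 ≤ L →
  12 * L ≤ P → (P : ℝ) / L ≤ (((Ioc P (4 * P)).filter Nat.Prime).card : ℝ) → 1 ≤ r →
  8192 * L ^ 2 * r ≤ P → (4 * P) ^ (6 * r) ≤ M →
  ((((range M).filter (fun n => Squarefree (n.choose k))).card : ℕ) : ℝ) ≤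
    2 * M * (8192 * L ^ 2 * r / P) ^ r

theorem key2 (hE : S_ER) : S_KEY2 := by
  classical
  intro k P r M L hk1 hk2 hP hL hPL hB hr hr2 hM
  set B := (Ioc P (4 * P)).filter Nat.Prime with hBdef
  have hL0 : 0 < L := by linarith
  have hP0 : (0 : ℝ) < P := by
    have : 0 < P := by omega
    exact_mod_cast this
  let Bg := B.filter (fun p => (P : ℝ) / (4 * L) ≤ ((k % p : ℕ) : ℝ))
  let Bb := B.filter (fun p => ¬ ((P : ℝ) / (4 * L) ≤ ((k % p : ℕ) : ℝ)))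
  have hBmem : ∀ p ∈ B, p.Prime ∧ P < p ∧ p ≤ 4 * P := by
    intro p hp
    rw [hBdef, Finset.mem_filter, Finset.mem_Ioc] at hp
    exact ⟨hp.2, hp.1.1, hp.1.2⟩
  have hsplit : Bg.card + Bb.card = B.card := Finset.card_filter_add_card_filter_not _
  obtain ⟨P', rfl⟩ : ∃ P', P = P' + 1 := ⟨P - 1, by omega⟩
  have hkP : P' ^ 2 ≤ k := by simpa using hk1
  have hk4 : 4 * (P' + 1) < k + 1 := by nlinarith
  have hbad : Bb.card ≤ ⌈((P' + 1 : ℕ) : ℝ) / (4 * L)⌉₊ := by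
    rw [← card_range ⌈((P' + 1 : ℕ) : ℝ) / (4 * L)⌉₊]
    apply Finset.card_le_card_of_injOn (fun p => k % p)
    · intro p hp
      have h1 := (Finset.mem_filter.1 (Finset.mem_coe.1 hp)).2
      rw [not_le] at h1
      rw [Finset.mem_coe, mem_range]
      exact Nat.lt_ceil.2 h1
    · intro p hp q hq hpq
      have hpB := hBmem p (Finset.mem_filter.1 (Finset.mem_coe.1 hp)).1
      have hqB := hBmem q (Finset.mem_filter.1 (Finset.mem_coe.1 hq)).1
      by_contra hne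
      have hpq' : k % p = k % q := hpq
      have h1 : p ∣ k - k % p := Nat.dvd_sub_mod k
      have h2 : q ∣ k - k % p := by rw [hpq']; exact Nat.dvd_sub_mod k
      have h3 : p * q ∣ k - k % p :=
        ((Nat.coprime_primes hpB.1 hqB.1).2 hne).mul_dvd_of_dvd_of_dvd h1 h2
      have h4 : k % p < p := Nat.mod_lt _ hpB.1.pos
      have h5 : 0 < k - k % p := by omega
      have h6 := Nat.le_of_dvd h5 h3
      have h7 : (P' + 1) * (P' + 1) < p * q := Nat.mul_lt_mul'' hpB.2.1 hqB.2.1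
      have h8 : (P' + 1) ^ 2 = (P' + 1) * (P' + 1) := by ring
      omega
  have hbad' : (Bb.card : ℝ) ≤ ((P' + 1 : ℕ) : ℝ) / (4 * L) + 1 := by
    have h1 : (Bb.card : ℝ) ≤ (⌈((P' + 1 : ℕ) : ℝ) / (4 * L)⌉₊ : ℝ) := by exact_mod_cast hbad
    exact h1.trans (Nat.ceil_lt_add_one (by positivity)).le
  set X : ℝ := ((P' + 1 : ℕ) : ℝ) / L with hX
  have hX12 : 12 ≤ X := by rw [hX, le_div_iff₀ hL0]; exact hPL
  have hX4 : ((P' + 1 : ℕ) : ℝ) / (4 * L) = X / 4 := by rw [hX]; field_simp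
  rw [hX4] at hbad'
  have hgood : X / 2 ≤ (Bg.card : ℝ) := by
    have h1 : (Bg.card : ℝ) + (Bb.card : ℝ) = (B.card : ℝ) := by exact_mod_cast hsplit
    linarith
  have hTmem : ∀ p ∈ Bg, p.Prime ∧ P' + 1 < p ∧ p ≤ 4 * (P' + 1) := fun p hp =>
    hBmem p (Finset.mem_filter.1 hp).1
  -- lower bound of the ratio
  have hratio : ∀ p ∈ Bg, 1 / (2048 * L) ≤ ((E k p).card : ℝ) / ((p ^ 2 : ℕ) : ℝ) := by
    intro p hp
    obtain ⟨hpp, hp1, hp2⟩ := hTmem p hp
    have hgp := (Finset.mem_filter.1 hp).2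
    have hpk : k < p ^ 2 := hk2.trans (Nat.pow_lt_pow_left hp1 (by norm_num))
    have h1 := card_E hpp.pos hpk
    have h1' : ((k / p : ℕ) : ℝ) * ((k % p : ℕ) : ℝ) ≤ ((E k p).card : ℝ) := by
      exact_mod_cast h1
    have hp0 : (0 : ℝ) < p := by exact_mod_cast hpp.pos
    have h2 : ((P' + 1 : ℕ) : ℝ) / 32 ≤ ((k / p : ℕ) : ℝ) := by
      have h3 : k < p * (k / p + 1) := Nat.lt_mul_div_succ k hpp.pos
      have h4 : (k : ℝ) < p * (((k / p : ℕ) : ℝ) + 1) := by exact_mod_cast h3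
      have h5 : ((P' : ℝ)) ^ 2 ≤ k := by exact_mod_cast hkP
      have h6 : (p : ℝ) ≤ 4 * ((P' : ℝ) + 1) := by exact_mod_cast hp2
      have h7 : (6 : ℝ) ≤ P' := by
        have : 6 ≤ P' := by omega
        exact_mod_cast this
      push_cast
      by_contra hcon
      push Not at hcon
      have h8 : (0 : ℝ) ≤ ((k / p : ℕ) : ℝ) := Nat.cast_nonneg _
      have h9 : (p : ℝ) * (((k / p : ℕ) : ℝ) + 1) ≤
          (4 * ((P' : ℝ) + 1)) * (((P' : ℝ) + 1) / 32 + 1) := by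
        apply mul_le_mul h6 (by linarith) (by positivity) (by positivity)
      nlinarith
    rw [hX4] at hgp
    have h3 : ((P' + 1 : ℕ) : ℝ) / 32 * (X / 4) ≤ ((E k p).card : ℝ) := by
      refine le_trans ?_ h1'
      apply mul_le_mul h2 hgp (by positivity) (Nat.cast_nonneg _)
    have h4 : ((p ^ 2 : ℕ) : ℝ) ≤ 16 * ((P' + 1 : ℕ) : ℝ) ^ 2 := by
      have h5 : p ^ 2 ≤ (4 * (P' + 1)) ^ 2 := Nat.pow_le_pow_left hp2 2
      have h6 : ((p ^ 2 : ℕ) : ℝ) ≤ (((4 * (P' + 1)) ^ 2 : ℕ) : ℝ) := by exact_mod_cast h5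
      refine h6.trans (le_of_eq ?_)
      push_cast
      ring
    have h5 : (0 : ℝ) < ((p ^ 2 : ℕ) : ℝ) := by
      have : 0 < p ^ 2 := pow_pos hpp.pos 2
      exact_mod_cast this
    rw [div_le_div_iff₀ (by positivity) h5, one_mul]
    calc ((p ^ 2 : ℕ) : ℝ) ≤ 16 * ((P' + 1 : ℕ) : ℝ) ^ 2 := h4
      _ = ((P' + 1 : ℕ) : ℝ) / 32 * (X / 4) * (2048 * L) := by
          rw [hX]
          field_simp
          ring
      _ ≤ ((E k p).card : ℝ) * (2048 * L) :=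
          mul_le_mul_of_nonneg_right h3 (by positivity)
  have hg2 : ((P' + 1 : ℕ) : ℝ) / (2 * L) ≤ (Bg.card : ℝ) := by
    refine le_trans (le_of_eq ?_) hgood
    rw [hX]; field_simp
  have hr0 : (1 : ℝ) ≤ r := by exact_mod_cast hr
  have hLL : L ≤ L ^ 2 := by nlinarith
  have hg3 : ((P' + 1 : ℕ) : ℝ) / (4096 * L ^ 2) ≤ (Bg.card : ℝ) * (1 / (2048 * L)) := by
    calc ((P' + 1 : ℕ) : ℝ) / (4096 * L ^ 2) = ((P' + 1 : ℕ) : ℝ) / (2 * L) * (1 / (2048 * L)) := by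
          field_simp
          norm_num
      _ ≤ _ := mul_le_mul_of_nonneg_right hg2 (by positivity)
  have hg4 : 2 * (r : ℝ) ≤ ((P' + 1 : ℕ) : ℝ) / (4096 * L ^ 2) := by
    rw [le_div_iff₀ (by positivity)]
    linarith
  have hg5 : 2 * r ≤ Bg.card := by
    have h1 : 2 * (r : ℝ) ≤ ((P' + 1 : ℕ) : ℝ) / (2 * L) := by
      rw [le_div_iff₀ (by positivity)]
      nlinarith
    have h2 := h1.trans hg2
    exact_mod_cast h2
  have hg6 : Bg.card ≤ 4 * (P' + 1) := by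
    have h1 : Bg ⊆ Ioc 0 (4 * (P' + 1)) := by
      intro p hp
      have := hTmem p hp
      rw [mem_Ioc]
      exact ⟨this.1.pos, this.2.2⟩
    have := card_le_card h1
    rwa [Nat.card_Ioc] at this
  have hmain := hE Bg (fun p => E k p) (1 / (2048 * L)) (4 * (P' + 1)) r M
    (fun p hp => (hTmem p hp).1) (fun p _ => by unfold E; exact filter_subset _ _) (by positivity)
    hratio (fun p hp => (hTmem p hp).2.2) hg6 hr hg5 hM (hg4.trans hg3)
  set sf := (range M).filter (fun n => Squarefree (n.choose k)) with hsf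
  have hsub : sf ⊆ (range M).filter (fun n => ∀ p ∈ Bg, n % p ^ 2 ∉ E k p) := by
    intro n hn
    rw [hsf, mem_filter] at hn
    rw [mem_filter]
    refine ⟨hn.1, fun p hp hE' => ?_⟩
    obtain ⟨hpp, hp1, hp2⟩ := hTmem p hp
    have hpk : k < p ^ 2 := hk2.trans (Nat.pow_lt_pow_left hp1 (by norm_num))
    unfold E at hE'
    rw [Finset.mem_filter] at hE'
    obtain ⟨-, hE1, hE2⟩ := hE'
    rw [Nat.mod_mod_of_dvd _ (Dvd.intro_left (p ^ 1) (by ring))] at hE2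
    exact not_sqfree hpp hpk hE2 hE1 hn.2
  have hcard : (sf.card : ℝ) ≤
      ((((range M).filter (fun n => ∀ p ∈ Bg, n % p ^ 2 ∉ E k p)).card : ℕ) : ℝ) := by
    exact_mod_cast card_le_card hsub
  refine (hcard.trans hmain).trans ?_
  apply mul_le_mul_of_nonneg_left _ (by positivity)
  apply pow_le_pow_left₀ (by positivity)
  have hpos : (0 : ℝ) < ((P' + 1 : ℕ) : ℝ) / (4096 * L ^ 2) := by positivity
  calc 2 * (r : ℝ) / ((Bg.card : ℝ) * (1 / (2048 * L))) ≤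
        2 * (r : ℝ) / (((P' + 1 : ℕ) : ℝ) / (4096 * L ^ 2)) :=
        div_le_div_of_nonneg_left (by positivity) hpos hg3
    _ = 8192 * L ^ 2 * r / ((P' + 1 : ℕ) : ℝ) := by
        field_simp
        norm_num

end Pool.Agent.H31.SQ
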