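import Pool.Agent.H31.SQ.Core

/-!
JOB KUM for helper31 (project SQ): Kummer's theorem in terms of borrows (helper95).
-/

set_option autoImplicit false

open Finset

namespace Pool.Agent.H31.SQ

theorem kum_borrow {q n k : ℕ} (hq : 0 < q) (h : k ≤ n) :
    q ≤ k % q + (n - k) % q ↔ n % q < k % q := by
  have ha : k % q < q := Nat.mod_lt _ hq
  have hb : (n - k) % q < q := Nat.mod_lt _ hq
  have hn : n % q = (k % q + (n - k) % q) % q := by
    rw [← Nat.add_mod, Nat.add_sub_cancel' h]
  rcases lt_or_ge (k % q + (n - k) % q) q with h1 | h1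
  · rw [Nat.mod_eq_of_lt h1] at hn
    omega
  · have h2 : k % q + (n - k) % q - q < q := by omega
    rw [Nat.mod_eq_sub_mod h1, Nat.mod_eq_of_lt h2] at hn
    omega

/-- nesting of the borrows beyond the length of `k` -/
theorem kum_nest {k p n : ℕ} (hp : 1 < p) {i j : ℕ} (hi : Nat.log p k < i) (hij : i ≤ j)
    (h : n % p ^ j < k % p ^ j) : n % p ^ i < k % p ^ i := by
  have hki : k < p ^ i := Nat.lt_pow_of_log_lt hp hi
  have hkj : k < p ^ j := hki.trans_le (Nat.pow_le_pow_right hp.le hij)
  rw [Nat.mod_eq_of_lt hkj] at h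
  rw [Nat.mod_eq_of_lt hki, ← Nat.mod_mod_of_dvd n (pow_dvd_pow p hij)]
  exact (Nat.mod_le _ _).trans_lt h

theorem kum1 (k p n m : ℕ) : GG k p (n + p ^ (Nat.log p k + 2) * m) ↔ GG k p n := by
  have h : gset k p (n + p ^ (Nat.log p k + 2) * m) = gset k p n := by
    unfold gset
    apply Finset.filter_congr
    intro i hi
    rw [Finset.mem_Icc] at hi
    have : p ^ (Nat.log p k + 2) = p ^ i * p ^ (Nat.log p k + 2 - i) := by
      rw [← pow_add]; congr 1; omega
    rw [this, mul_assoc, Nat.add_mul_mod_self_left]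
  unfold GG
  rw [h]

theorem kum2 (k p n : ℕ) (hp : p.Prime) (h : k ≤ n) : p ^ 2 ∣ n.choose k ↔ GG k p n := by
  set L := Nat.log p k with hL
  set b := Nat.log p n + L + 4 with hb
  have hfac := Nat.factorization_choose hp h (show Nat.log p n < b by omega)
  have hset : ({i ∈ Ico 1 b | p ^ i ≤ k % p ^ i + (n - k) % p ^ i} : Finset ℕ) =
      (Ico 1 b).filter (fun i => n % p ^ i < k % p ^ i) := by
    apply Finset.filter_congr
    intro i _
    exact kum_borrow (pow_pos hp.pos i) h
  rw [hset] at hfac
  rw [hp.pow_dvd_iff_le_factorization (Nat.choose_pos h).ne', hfac]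
  unfold GG
  constructor
  · intro h2
    by_cases hex : ∃ j ∈ (Ico 1 b).filter (fun i => n % p ^ i < k % p ^ i), L + 2 < j
    · obtain ⟨j, hj, hjL⟩ := hex
      rw [Finset.mem_filter] at hj
      have hsub : ({L + 1, L + 2} : Finset ℕ) ⊆ gset k p n := by
        intro i hi
        simp only [Finset.mem_insert, Finset.mem_singleton] at hi
        unfold gset
        rw [Finset.mem_filter, Finset.mem_Icc]
        refine ⟨by omega, ?_⟩
        exact kum_nest hp.one_lt (by omega) (by omega) hj.2
      calc 2 = ({L + 1, L + 2} : Finset ℕ).card := by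
            rw [Finset.card_pair (by omega)]
        _ ≤ _ := Finset.card_le_card hsub
    · push Not at hex
      refine h2.trans (Finset.card_le_card ?_)
      intro i hi
      have hi' := hi
      rw [Finset.mem_filter, Finset.mem_Ico] at hi'
      unfold gset
      rw [Finset.mem_filter, Finset.mem_Icc]
      exact ⟨⟨hi'.1.1, hex i hi⟩, hi'.2⟩
  · intro h2
    refine h2.trans (Finset.card_le_card ?_)
    intro i hi
    unfold gset at hi
    rw [Finset.mem_filter, Finset.mem_Icc] at hi
    rw [Finset.mem_filter, Finset.mem_Ico]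
    exact ⟨⟨hi.1.1, by omega⟩, hi.2⟩

theorem kum3 (k p n : ℕ) (hp : p.Prime) (hk : k < p ^ 2) (h : GG k p n) : n % p ^ 2 < k := by
  have hL : Nat.log p k < 2 := by
    rcases Nat.eq_zero_or_pos k with rfl | hk0
    · simp
    · exact Nat.log_lt_of_lt_pow hk0.ne' hk
  have hex : ∃ i ∈ gset k p n, 2 ≤ i := by
    by_contra hcon
    push Not at hcon
    have hsub : gset k p n ⊆ {1} := by
      intro i hi
      have h1 := hcon i hi
      unfold gset at hi
      rw [Finset.mem_filter, Finset.mem_Icc] at hi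
      rw [Finset.mem_singleton]
      omega
    have := Finset.card_le_card hsub
    rw [Finset.card_singleton] at this
    unfold GG at h
    omega
  obtain ⟨i, hi, hi2⟩ := hex
  unfold gset at hi
  rw [Finset.mem_filter] at hi
  have hki : k < p ^ i := hk.trans_le (Nat.pow_le_pow_right hp.pos hi2)
  have h2 := hi.2
  rw [Nat.mod_eq_of_lt hki] at h2
  rw [← Nat.mod_mod_of_dvd n (pow_dvd_pow p hi2)]
  exact (Nat.mod_le _ _).trans_lt h2

/-- JOB KUM. -/
theorem kum : S_KUM := ⟨kum1, kum2, kum3⟩


end Pool.Agent.H31.SQ
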