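import Pool.Agent.H31.SQ.CoreLow

set_option autoImplicit false

open Finset Filter Topology

namespace Pool.Agent.H31.SQ

theorem lam_pos (h : ℕ) : 1 ≤ lam h := by unfold lam; omega

theorem lam_succ_le {h : ℕ} (hh : 1 ≤ h) : lam (h + 1) ≤ 2 * lam h := by
  have h1 : Nat.log 2 (h + 1) ≤ Nat.log 2 (h * 2) := Nat.log_mono_right (by omega)
  have h2 : Nat.log 2 (h * 2) = Nat.log 2 h + 1 := Nat.log_mul_base (by norm_num) (by omega)
  unfold lam
  omega

/-- JOB EXH -/
theorem exh : S_EXH := by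
  intro A H N hA hH hN
  classical
  have hex : ∃ h, H ≤ h ∧ N < 2 ^ (A * ((h + 1) * lam (h + 1) ^ 3)) := by
    refine ⟨max H N, le_max_left _ _, ?_⟩
    have h1 : N < 2 ^ N := Nat.lt_two_pow_self
    refine h1.trans_le (Nat.pow_le_pow_right (by norm_num) ?_)
    have h2 : 1 ≤ lam (max H N + 1) ^ 3 := Nat.one_le_pow _ _ (lam_pos _)
    calc N ≤ max H N + 1 := (le_max_right _ _).trans (Nat.le_succ _)
      _ = 1 * ((max H N + 1) * 1) := by ring
      _ ≤ A * ((max H N + 1) * lam (max H N + 1) ^ 3) :=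
        Nat.mul_le_mul hA (Nat.mul_le_mul_left _ h2)
  refine ⟨Nat.find hex, (Nat.find_spec hex).1, ?_, (Nat.find_spec hex).2⟩
  rcases (Nat.find_spec hex).1.eq_or_lt with h | h
  · rw [← h]; exact hN
  · have hlt : Nat.find hex - 1 < Nat.find hex := by omega
    have hnot := Nat.find_min hex hlt
    have e : Nat.find hex - 1 + 1 = Nat.find hex := by omega
    rw [e] at hnot
    by_contra hc
    exact hnot ⟨by omega, not_le.mp hc⟩

/-- JOB LOW -/
theorem low : S_LOW := by
  intro A hA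
  have hA0 : (0 : ℝ) < A := by exact_mod_cast hA
  have hA1 : (1 : ℝ) ≤ A := by exact_mod_cast hA
  have hl2 : (0 : ℝ) < Real.log 2 := Real.log_pos (by norm_num)
  have hl2' : Real.log 2 < 0.6931471808 := Real.log_two_lt_d9
  have hl2'' : 0.6931471803 < Real.log 2 := Real.log_two_gt_d9
  refine ⟨4 * Real.log 2 / (1024 * A), 2, by positivity, ?_⟩
  intro h N hh hN1 hN2
  have hh1 : (2 : ℝ) ≤ h := by exact_mod_cast hh
  set L : ℝ := (lam h : ℝ) with hLdef
  have hlam2 : 2 ≤ lam h := by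
    have : 1 ≤ Nat.log 2 h := Nat.log_pos (by norm_num) hh
    unfold lam; omega
  have hL2 : (2 : ℝ) ≤ L := by rw [hLdef]; exact_mod_cast hlam2
  have hNpos : 0 < N := lt_of_lt_of_le (by positivity) hN1
  have hN0 : (0 : ℝ) < N := by exact_mod_cast hNpos
  -- lower bound for log N
  have hlow1 : (A * (h * lam h ^ 3) : ℝ) * Real.log 2 ≤ Real.log N := by
    have h1 : ((2 : ℝ) ^ (A * (h * lam h ^ 3))) ≤ N := by exact_mod_cast hN1
    have h2 := Real.log_le_log (by positivity) h1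
    rw [Real.log_pow] at h2
    push_cast at h2
    exact h2
  have hL3 : (8 : ℝ) ≤ L ^ 3 := by
    calc (8 : ℝ) = 2 ^ 3 := by norm_num
      _ ≤ L ^ 3 := pow_le_pow_left₀ (by norm_num) hL2 3
  have hlow : (h : ℝ) ≤ Real.log N := by
    refine le_trans ?_ hlow1
    have h3 : (1 : ℝ) ≤ L ^ 3 * Real.log 2 := by nlinarith
    calc (h : ℝ) = 1 * (h * 1) := by ring
      _ ≤ A * (h * (L ^ 3 * Real.log 2)) := by
          apply mul_le_mul hA1 _ (by positivity) hA0.le
          exact mul_le_mul_of_nonneg_left h3 (by positivity)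
      _ = (A * (h * lam h ^ 3) : ℝ) * Real.log 2 := by rw [hLdef]; ring
  -- upper bound for log N
  have hup : Real.log N ≤ 16 * A * h * L ^ 3 := by
    have h1 : (N : ℝ) ≤ (2 : ℝ) ^ (A * ((h + 1) * lam (h + 1) ^ 3)) := by exact_mod_cast hN2.le
    have h2 := Real.log_le_log hN0 h1
    rw [Real.log_pow] at h2
    refine h2.trans ?_
    have h3 : A * ((h + 1) * lam (h + 1) ^ 3) ≤ 16 * A * h * lam h ^ 3 := by
      have h4 : lam (h + 1) ^ 3 ≤ (2 * lam h) ^ 3 := Nat.pow_le_pow_left (lam_succ_le (by omega)) 3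
      calc A * ((h + 1) * lam (h + 1) ^ 3) ≤ A * ((2 * h) * (2 * lam h) ^ 3) :=
            Nat.mul_le_mul_left _ (Nat.mul_le_mul (by omega) h4)
        _ = 16 * A * h * lam h ^ 3 := by ring
    have h5 : ((A * ((h + 1) * lam (h + 1) ^ 3) : ℕ) : ℝ) ≤ 16 * A * h * L ^ 3 := by
      have : ((A * ((h + 1) * lam (h + 1) ^ 3) : ℕ) : ℝ) ≤ ((16 * A * h * lam h ^ 3 : ℕ) : ℝ) := by
        exact_mod_cast h3
      push_cast at this ⊢
      exact this
    have h6 : (0 : ℝ) ≤ ((A * ((h + 1) * lam (h + 1) ^ 3) : ℕ) : ℝ) := by positivity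
    calc ((A * ((h + 1) * lam (h + 1) ^ 3) : ℕ) : ℝ) * Real.log 2
        ≤ ((A * ((h + 1) * lam (h + 1) ^ 3) : ℕ) : ℝ) * 1 :=
          mul_le_mul_of_nonneg_left (by linarith) h6
      _ ≤ 16 * A * h * L ^ 3 := by rw [mul_one]; exact h5
  -- log log N
  have hll : L / 4 ≤ Real.log (Real.log N) := by
    have h1 : Real.log h ≤ Real.log (Real.log N) := Real.log_le_log (by linarith) hlow
    refine le_trans ?_ h1
    have h2 : ((2 : ℝ) ^ (Nat.log 2 h)) ≤ h := by
      exact_mod_cast Nat.pow_log_le_self 2 (by omega : h ≠ 0)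
    have h3 := Real.log_le_log (by positivity) h2
    rw [Real.log_pow] at h3
    refine le_trans ?_ h3
    have h4 : (Nat.log 2 h : ℝ) = L - 1 := by
      rw [hLdef]; unfold lam; push_cast; ring
    rw [h4]
    nlinarith
  have hll0 : 0 < Real.log (Real.log N) := by linarith
  have hcube : L ^ 3 / 64 ≤ Real.log (Real.log N) ^ 3 := by
    have : (L / 4) ^ 3 ≤ Real.log (Real.log N) ^ 3 := pow_le_pow_left₀ (by linarith) hll 3
    calc L ^ 3 / 64 = (L / 4) ^ 3 := by ring
      _ ≤ _ := this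
  have hratio : Real.log N / Real.log (Real.log N) ^ 3 ≤ 1024 * A * h := by
    rw [div_le_iff₀ (by positivity)]
    calc Real.log N ≤ 16 * A * h * L ^ 3 := hup
      _ = 1024 * A * h * (L ^ 3 / 64) := by ring
      _ ≤ 1024 * A * h * Real.log (Real.log N) ^ 3 :=
        mul_le_mul_of_nonneg_left hcube (by positivity)
  have hfin : 4 * Real.log 2 / (1024 * A) * (Real.log N / Real.log (Real.log N) ^ 3) ≤
      4 * h * Real.log 2 := by
    calc 4 * Real.log 2 / (1024 * A) * (Real.log N / Real.log (Real.log N) ^ 3)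
        ≤ 4 * Real.log 2 / (1024 * A) * (1024 * A * h) :=
          mul_le_mul_of_nonneg_left hratio (by positivity)
      _ = 4 * h * Real.log 2 := by field_simp
  have h7 : (1 : ℝ) / 2 ^ (4 * h) = Real.exp (-(4 * h * Real.log 2)) := by
    rw [Real.exp_neg, one_div]
    congr 1
    rw [show (4 * (h : ℝ) * Real.log 2) = ((4 * h : ℕ) : ℝ) * Real.log 2 by push_cast; ring,
      Real.exp_nat_mul, Real.exp_log (by norm_num)]
  rw [h7]
  exact Real.exp_le_exp.mpr (by linarith)

end Pool.Agent.H31.SQ
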