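import Pool.Agent.H31.SQ.Core

set_option autoImplicit false

open Finset Filter Topology

namespace Pool.Agent.H31.SQ

/-- one step of the telescoping sum -/
theorem rank_step {σ : ℝ} (h0 : 0 < σ) (h1 : σ ≤ 1 / 2) {m : ℕ} (hm : 2 ≤ m) :
    (1 - σ) * (m : ℝ) ^ (σ - 2) ≤ ((m - 1 : ℕ) : ℝ) ^ (σ - 1) - (m : ℝ) ^ (σ - 1) := by
  have hm0 : (0 : ℝ) < m := by exact_mod_cast (by omega : 0 < m)
  have hm1 : (0 : ℝ) < ((m - 1 : ℕ) : ℝ) := by exact_mod_cast (by omega : 0 < m - 1)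
  have hcast : ((m - 1 : ℕ) : ℝ) = (m : ℝ) - 1 := by
    rw [Nat.cast_sub (by omega)]; simp
  -- (1 - 1/m)^(1-σ) ≤ 1 - (1-σ)/m
  have hB : (1 + (-(1 / (m : ℝ)))) ^ (1 - σ) ≤ 1 + (1 - σ) * (-(1 / (m : ℝ))) := by
    apply rpow_one_add_le_one_add_mul_self
    · have : 1 / (m : ℝ) ≤ 1 := by
        rw [div_le_one hm0]; exact_mod_cast (by omega : 1 ≤ m)
      linarith
    · linarith
    · linarith
  have hfrac : 1 + (-(1 / (m : ℝ))) = ((m - 1 : ℕ) : ℝ) / m := by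
    rw [hcast]; field_simp; ring
  rw [hfrac, Real.div_rpow hm1.le hm0.le] at hB
  have hA : (0 : ℝ) < (m : ℝ) ^ (1 - σ) := Real.rpow_pos_of_pos hm0 _
  have hC : (0 : ℝ) < ((m - 1 : ℕ) : ℝ) ^ (1 - σ) := Real.rpow_pos_of_pos hm1 _
  have e1 : (m : ℝ) ^ (σ - 1) = ((m : ℝ) ^ (1 - σ))⁻¹ := by
    rw [← Real.rpow_neg hm0.le]; congr 1; ring
  have e2 : ((m - 1 : ℕ) : ℝ) ^ (σ - 1) = (((m - 1 : ℕ) : ℝ) ^ (1 - σ))⁻¹ := by
    rw [← Real.rpow_neg hm1.le]; congr 1; ring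
  have e3 : (m : ℝ) ^ (σ - 2) = ((m : ℝ) ^ (1 - σ))⁻¹ * (1 / (m : ℝ)) := by
    rw [← e1, one_div, ← Real.rpow_neg_one, ← Real.rpow_add hm0]; congr 1; ring
  rw [e1, e2, e3]
  set A := (m : ℝ) ^ (1 - σ) with hAdef
  set C := ((m - 1 : ℕ) : ℝ) ^ (1 - σ) with hCdef
  set u := 1 / (m : ℝ) with hu
  have hu0 : 0 < u := by rw [hu]; positivity
  -- C / A ≤ 1 - (1-σ) u
  have hCA : C / A ≤ 1 - (1 - σ) * u := by linarith
  have hx : C ≤ (1 - (1 - σ) * u) * A := (div_le_iff₀ hA).mp hCA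
  -- want (1-σ) A⁻¹ u ≤ C⁻¹ - A⁻¹, i.e. (1 + (1-σ)u) C ≤ A
  have hgoal : (1 + (1 - σ) * u) * C ≤ A := by
    have hpos : 0 ≤ 1 + (1 - σ) * u := by
      have : 0 ≤ (1 - σ) * u := mul_nonneg (by linarith) hu0.le
      linarith
    calc (1 + (1 - σ) * u) * C ≤ (1 + (1 - σ) * u) * ((1 - (1 - σ) * u) * A) :=
          mul_le_mul_of_nonneg_left hx hpos
      _ = (1 - ((1 - σ) * u) ^ 2) * A := by ring
      _ ≤ 1 * A := by
          apply mul_le_mul_of_nonneg_right _ hA.le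
          nlinarith [sq_nonneg ((1 - σ) * u)]
      _ = A := one_mul A
  have : (1 + (1 - σ) * u) * A⁻¹ ≤ C⁻¹ := by
    rw [← div_eq_mul_inv, div_le_iff₀ hA, inv_mul_eq_div, le_div_iff₀ hC]
    exact hgoal
  nlinarith

/-- the tail sum -/
theorem rank_sum {σ : ℝ} (h0 : 0 < σ) (h1 : σ ≤ 1 / 2) {z : ℕ} (hz : 1 ≤ z) (y : ℕ) :
    ∑ m ∈ Ioc z y, (m : ℝ) ^ (σ - 2) ≤ 2 * (z : ℝ) ^ (σ - 1) := by
  have key : ∀ n : ℕ, (1 - σ) * ∑ m ∈ Ioc z (z + n), (m : ℝ) ^ (σ - 2) ≤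
      (z : ℝ) ^ (σ - 1) - ((z + n : ℕ) : ℝ) ^ (σ - 1) := by
    intro n
    induction n with
    | zero => simp
    | succ n ih =>
      have hstep : Ioc z (z + (n + 1)) = insert (z + n + 1) (Ioc z (z + n)) := by
        ext m; simp only [mem_Ioc, mem_insert]; omega
      rw [hstep, Finset.sum_insert (by simp), mul_add]
      have := rank_step h0 h1 (m := z + n + 1) (by omega)
      have e : z + n + 1 - 1 = z + n := by omega
      rw [e] at this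
      have e' : z + (n + 1) = z + n + 1 := by omega
      rw [e']
      linarith
  have hnonneg : 0 ≤ (z : ℝ) ^ (σ - 1) := by positivity
  rcases Nat.lt_or_ge z y with h | h
  · obtain ⟨n, rfl⟩ := Nat.exists_eq_add_of_le h.le
    have hk := key n
    have hpos : 0 ≤ ((z + n : ℕ) : ℝ) ^ (σ - 1) := by positivity
    have hs : 0 ≤ ∑ m ∈ Ioc z (z + n), (m : ℝ) ^ (σ - 2) :=
      Finset.sum_nonneg fun m _ => by positivity
    have : (1 / 2) * ∑ m ∈ Ioc z (z + n), (m : ℝ) ^ (σ - 2) ≤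
        (1 - σ) * ∑ m ∈ Ioc z (z + n), (m : ℝ) ^ (σ - 2) :=
      mul_le_mul_of_nonneg_right (by linarith) hs
    linarith
  · rw [Finset.Ioc_eq_empty (by omega), Finset.sum_empty]; positivity

/-- JOB RANK (Rankin's trick). -/
theorem rank : S_RANK := by
  intro S k z y D σ h0 h1 hz hD hS
  have hD0 : (0 : ℝ) < D := by exact_mod_cast hD
  have hSp : ∀ p ∈ S, (0 : ℝ) < p := fun p hp => by
    have := (Finset.mem_Ioc.mp (hS hp)).1
    exact_mod_cast (by omega : 0 < p)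
  calc ∑ T ∈ S.powerset.filter (fun T => D < ∏ p ∈ T, p), ∏ p ∈ T, ((k : ℝ) / (p : ℝ) ^ 2)
      ≤ ∑ T ∈ S.powerset.filter (fun T => D < ∏ p ∈ T, p),
          (D : ℝ) ^ (-σ) * ∏ p ∈ T, ((k : ℝ) * (p : ℝ) ^ (σ - 2)) := by
        refine Finset.sum_le_sum fun T hT => ?_
        rw [Finset.mem_filter, Finset.mem_powerset] at hT
        have hTp : ∀ p ∈ T, (0 : ℝ) < p := fun p hp => hSp p (hT.1 hp)
        have e : ∏ p ∈ T, ((k : ℝ) * (p : ℝ) ^ (σ - 2)) =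
            (∏ p ∈ T, (p : ℝ)) ^ σ * ∏ p ∈ T, ((k : ℝ) / (p : ℝ) ^ 2) := by
          rw [← Real.finsetProd_rpow _ _ (fun p hp => (hTp p hp).le), ← Finset.prod_mul_distrib]
          refine Finset.prod_congr rfl fun p hp => ?_
          rw [Real.rpow_sub (hTp p hp)]
          have : (p : ℝ) ^ (2 : ℝ) = (p : ℝ) ^ (2 : ℕ) := by
            rw [← Real.rpow_natCast]; norm_num
          rw [this]; ring
        rw [e, ← mul_assoc]
        have hprodpos : (0 : ℝ) ≤ ∏ p ∈ T, ((k : ℝ) / (p : ℝ) ^ 2) :=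
          Finset.prod_nonneg fun p _ => by positivity
        refine le_mul_of_one_le_left hprodpos ?_
        have hDP : (D : ℝ) ≤ ∏ p ∈ T, (p : ℝ) := by
          have : (D : ℝ) ≤ ((∏ p ∈ T, p : ℕ) : ℝ) := by exact_mod_cast hT.2.le
          rwa [Nat.cast_prod] at this
        have h3 : (D : ℝ) ^ σ ≤ (∏ p ∈ T, (p : ℝ)) ^ σ := Real.rpow_le_rpow hD0.le hDP h0.le
        have h4 : (D : ℝ) ^ (-σ) * (D : ℝ) ^ σ = 1 := by
          rw [← Real.rpow_add hD0]; simp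
        calc (1 : ℝ) = (D : ℝ) ^ (-σ) * (D : ℝ) ^ σ := h4.symm
          _ ≤ (D : ℝ) ^ (-σ) * (∏ p ∈ T, (p : ℝ)) ^ σ :=
            mul_le_mul_of_nonneg_left h3 (by positivity)
    _ ≤ ∑ T ∈ S.powerset, (D : ℝ) ^ (-σ) * ∏ p ∈ T, ((k : ℝ) * (p : ℝ) ^ (σ - 2)) := by
        refine Finset.sum_le_sum_of_subset_of_nonneg (Finset.filter_subset _ _) fun T _ _ => ?_
        have : (0 : ℝ) ≤ ∏ p ∈ T, ((k : ℝ) * (p : ℝ) ^ (σ - 2)) :=
          Finset.prod_nonneg fun p _ => by positivity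
        positivity
    _ = (D : ℝ) ^ (-σ) * ∏ p ∈ S, (1 + (k : ℝ) * (p : ℝ) ^ (σ - 2)) := by
        rw [← Finset.mul_sum, Finset.prod_one_add]
    _ ≤ (D : ℝ) ^ (-σ) * ∏ p ∈ S, Real.exp ((k : ℝ) * (p : ℝ) ^ (σ - 2)) := by
        refine mul_le_mul_of_nonneg_left ?_ (by positivity)
        refine Finset.prod_le_prod (fun p _ => by positivity) fun p _ => ?_
        have := Real.add_one_le_exp ((k : ℝ) * (p : ℝ) ^ (σ - 2))
        linarith
    _ = (D : ℝ) ^ (-σ) * Real.exp (∑ p ∈ S, (k : ℝ) * (p : ℝ) ^ (σ - 2)) := by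
        rw [Real.exp_sum]
    _ ≤ (D : ℝ) ^ (-σ) * Real.exp (2 * k * (z : ℝ) ^ (σ - 1)) := by
        refine mul_le_mul_of_nonneg_left ?_ (by positivity)
        refine Real.exp_le_exp.mpr ?_
        rw [← Finset.mul_sum]
        have h5 : ∑ p ∈ S, (p : ℝ) ^ (σ - 2) ≤ ∑ m ∈ Ioc z y, (m : ℝ) ^ (σ - 2) :=
          Finset.sum_le_sum_of_subset_of_nonneg hS fun m _ _ => by positivity
        have h6 := rank_sum h0 h1 hz y
        have hk : (0 : ℝ) ≤ k := by positivity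
        calc (k : ℝ) * ∑ p ∈ S, (p : ℝ) ^ (σ - 2) ≤ k * (2 * (z : ℝ) ^ (σ - 1)) :=
              mul_le_mul_of_nonneg_left (h5.trans h6) hk
          _ = 2 * k * (z : ℝ) ^ (σ - 1) := by ring

end Pool.Agent.H31.SQ
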