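import Pool.Agent.H31.SQ.Stm5

set_option autoImplicit false

open Finset Filter Topology

namespace Pool.Agent.H31.SQ

open Pool.Agent.H324.SQ Pool.Agent.Helper530.Sq

theorem small5 (hK : S_KEY2) : S_SMALL5 := by
  intro m
  obtain ⟨P0, hP0⟩ := primes_window
  obtain ⟨S1, hS1⟩ := growth ((16384 * (2 * m + 1)) ^ 3) 6
  refine ⟨max (max P0 (2 ^ (S1 + 3))) (8192 * (m + 3) ^ 2 * (2 * m + 1) + 7), ?_⟩
  intro h hh k hk1 hk2 M hM
  have hh0 : P0 ≤ h := (le_max_left _ _).trans ((le_max_left _ _).trans hh)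
  have hh1 : 2 ^ (S1 + 3) ≤ h := (le_max_right _ _).trans ((le_max_left _ _).trans hh)
  have hh2 : 8192 * (m + 3) ^ 2 * (2 * m + 1) + 7 ≤ h := (le_max_right _ _).trans hh
  obtain ⟨l, hl⟩ : ∃ l, l = lam h := ⟨_, rfl⟩
  have hlS : S1 + 3 ≤ l := by rw [hl]; exact lam_ge _ _ hh1
  have hhl : h < 2 ^ l := by rw [hl]; exact lam_lt h
  rw [← hl] at hk1 hM
  have hh7 : 7 ≤ h := by omega
  set P : ℕ := Nat.sqrt k + 1 with hP
  have hZP : KK m * h * l ^ 2 ≤ P := by
    have h1 : KK m * h * l ^ 2 ≤ Nat.sqrt k := by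
      rw [Nat.le_sqrt, ← pow_two]
      exact hk1
    omega
  have hKKpos : 1 ≤ KK m := by unfold KK; omega
  have hl1 : 1 ≤ l := by omega
  have hhP : h ≤ P := by
    refine le_trans ?_ hZP
    calc h = 1 * h * 1 := by ring
      _ ≤ KK m * h * l ^ 2 := Nat.mul_le_mul (Nat.mul_le_mul_right _ hKKpos) (Nat.one_le_pow _ _ hl1)
  have hkP : k < P ^ 2 := by
    have := Nat.lt_succ_sqrt k
    rw [hP, pow_two]
    exact this
  have hkP' : (P - 1) ^ 2 ≤ k := by
    have := Nat.sqrt_le k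
    rw [hP, Nat.add_sub_cancel, pow_two]
    exact this
  have hP7 : 7 ≤ P := by omega
  have hPle : P ≤ 2 ^ (m * h) := by
    have : Nat.sqrt k ≤ k := Nat.sqrt_le_self k
    omega
  obtain ⟨e, he⟩ : ∃ e, e = Nat.log 2 P := ⟨_, rfl⟩
  have he1 : 2 ^ e ≤ P := by rw [he]; exact Nat.pow_log_le_self 2 (by omega)
  have he2 : P < 2 ^ (e + 1) := by rw [he]; exact Nat.lt_pow_succ_log_self (by norm_num) P
  have hemh : e ≤ m * h := by
    have h1 : 2 ^ e ≤ 2 ^ (m * h) := he1.trans hPle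
    exact (Nat.pow_le_pow_iff_right (by norm_num)).1 h1
  have hPR : (7 : ℝ) ≤ P := by exact_mod_cast hP7
  have hP0' : (0 : ℝ) < P := by linarith
  set L : ℝ := Real.log (4 * P) with hL
  have hL1 : 1 ≤ L := by
    rw [hL, Real.le_log_iff_exp_le (by positivity)]
    have := Real.exp_one_lt_d9
    linarith
  have hL0 : 0 < L := by linarith
  have hL2 : L ≤ e + 3 := by
    have h1 : (4 * P : ℝ) ≤ 2 ^ (e + 3) := by
      have : 4 * P ≤ 2 ^ (e + 3) := by
        have e1 : 2 ^ (e + 3) = 4 * 2 ^ (e + 1) := by ring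
        omega
      exact_mod_cast this
    have h2 : L ≤ Real.log (2 ^ (e + 3)) := Real.log_le_log (by positivity) h1
    rw [Real.log_pow] at h2
    have h3 : Real.log 2 ≤ 1 := by
      have := Real.log_two_lt_d9
      linarith
    push_cast at h2
    have h4 : (0 : ℝ) ≤ (e : ℝ) + 3 := by positivity
    nlinarith
  obtain ⟨J, hJ⟩ : ∃ J, J = 2 * m * h := ⟨_, rfl⟩
  have hJ1 : J + 1 ≤ (2 * m + 1) * h := by
    rw [hJ, add_mul, one_mul]
    omega
  obtain ⟨V, hV⟩ : ∃ V, V = 8192 * (e + 3) ^ 2 * (J + 1) := ⟨_, rfl⟩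
  have hVpos : 0 < V := by rw [hV]; positivity
  have hVR : 8192 * L ^ 2 * ((J : ℝ) + 1) ≤ V := by
    rw [hV]
    push_cast
    have h1 : L ^ 2 ≤ ((e : ℝ) + 3) ^ 2 := pow_le_pow_left₀ hL0.le hL2 2
    apply mul_le_mul_of_nonneg_right _ (by positivity)
    linarith
  -- (a)
  have h2V : 2 * V ≤ P := by
    by_cases hc : e ≤ 3 * l
    · have h1 : e + 3 ≤ 4 * l := by omega
      calc 2 * V = 16384 * (e + 3) ^ 2 * (J + 1) := by rw [hV]; ring
        _ ≤ 16384 * (4 * l) ^ 2 * ((2 * m + 1) * h) := by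
            apply Nat.mul_le_mul _ hJ1
            exact Nat.mul_le_mul_left _ (Nat.pow_le_pow_left h1 2)
        _ = (2 ^ 18 * (2 * m + 1)) * h * l ^ 2 := by ring
        _ ≤ KK m * h * l ^ 2 := by
            apply Nat.mul_le_mul_right
            apply Nat.mul_le_mul_right
            unfold KK
            omega
        _ ≤ P := hZP
    · push Not at hc
      refine le_trans ?_ he1
      have h1 := hS1 e (by omega)
      have h2 : h ^ 3 ≤ 2 ^ e := by
        calc h ^ 3 ≤ (2 ^ l) ^ 3 := Nat.pow_le_pow_left hhl.le 3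
          _ = 2 ^ (l * 3) := by rw [← pow_mul]
          _ ≤ 2 ^ e := Nat.pow_le_pow_right (by norm_num) (by omega)
      have h3 : (16384 * (2 * m + 1) * (e + 3) ^ 2 * h) ^ 3 ≤ (2 ^ e) ^ 3 := by
        calc (16384 * (2 * m + 1) * (e + 3) ^ 2 * h) ^ 3 =
              ((16384 * (2 * m + 1)) ^ 3 * (e + 3) ^ 6) * h ^ 3 := by ring
          _ ≤ 4 ^ e * 2 ^ e := Nat.mul_le_mul h1 h2
          _ = (2 ^ e) ^ 3 := by
              rw [show (4 : ℕ) = 2 ^ 2 by norm_num, ← pow_mul, ← pow_mul, ← pow_add]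
              congr 1
              ring
      have h4 : 16384 * (2 * m + 1) * (e + 3) ^ 2 * h ≤ 2 ^ e :=
        (Nat.pow_le_pow_iff_left (by norm_num)).1 h3
      refine le_trans ?_ h4
      calc 2 * V = 16384 * (e + 3) ^ 2 * (J + 1) := by rw [hV]; ring
        _ ≤ 16384 * (e + 3) ^ 2 * ((2 * m + 1) * h) := Nat.mul_le_mul_left _ hJ1
        _ = 16384 * (2 * m + 1) * (e + 3) ^ 2 * h := by ring
  have hVl : V ≤ 2 ^ (4 * l) := by
    have h1 : e + 3 ≤ (m + 3) * h := by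
      calc e + 3 ≤ m * h + 3 * h := by omega
        _ = (m + 3) * h := by ring
    calc V ≤ 8192 * ((m + 3) * h) ^ 2 * ((2 * m + 1) * h) := by
          rw [hV]
          apply Nat.mul_le_mul _ hJ1
          exact Nat.mul_le_mul_left _ (Nat.pow_le_pow_left h1 2)
      _ = (8192 * (m + 3) ^ 2 * (2 * m + 1)) * h ^ 3 := by ring
      _ ≤ h * h ^ 3 := Nat.mul_le_mul_right _ (by omega)
      _ = h ^ 4 := by ring
      _ ≤ (2 ^ l) ^ 4 := Nat.pow_le_pow_left hhl.le 4
      _ = 2 ^ (4 * l) := by rw [← pow_mul]; ring_nf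
  -- the exponent `v`
  obtain ⟨v, hv⟩ : ∃ v, v = Nat.log 2 (P / V) := ⟨_, rfl⟩
  have hPV : 2 ≤ P / V := by
    rw [Nat.le_div_iff_mul_le hVpos]
    exact h2V
  have hv1 : 1 ≤ v := by
    rw [hv]
    exact Nat.log_pos (by norm_num) hPV
  have hv2 : 2 ^ v * V ≤ P := by
    have h1 : 2 ^ v ≤ P / V := by rw [hv]; exact Nat.pow_log_le_self 2 (by omega)
    exact (Nat.mul_le_mul_right _ h1).trans (Nat.div_mul_le_self P V)
  have hv3 : P ≤ 2 ^ (v + 1) * V := by
    have h1 : P / V < 2 ^ (v + 1) := by rw [hv]; exact Nat.lt_pow_succ_log_self (by norm_num) _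
    have h2 : P < V * (P / V + 1) := Nat.lt_mul_div_succ P hVpos
    calc P ≤ V * (P / V + 1) := h2.le
      _ ≤ V * 2 ^ (v + 1) := Nat.mul_le_mul_left _ h1
      _ = 2 ^ (v + 1) * V := by ring
  have hve : v ≤ m * h := by
    have h1 : 2 ^ v ≤ 2 ^ (m * h) := by
      refine le_trans ?_ hPle
      refine le_trans ?_ hv2
      exact Nat.le_mul_of_pos_right _ hVpos
    exact (Nat.pow_le_pow_iff_right (by norm_num)).1 h1
  obtain ⟨r, hr⟩ : ∃ r, r = J / v + 1 := ⟨_, rfl⟩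
  have hr1 : 1 ≤ r := by rw [hr]; exact Nat.le_add_left _ _
  have hrJ : r ≤ J + 1 := by
    rw [hr]
    exact Nat.succ_le_succ (Nat.div_le_self J v)
  have hvr : J + 1 ≤ v * r := by
    rw [hr]
    exact Nat.lt_mul_div_succ J (by omega)
  have hvr2 : v * r ≤ J + v := by
    rw [hr, mul_add, mul_one]
    exact Nat.add_le_add_right (Nat.mul_div_le J v) v
  have hrR : (r : ℝ) ≤ (J : ℝ) + 1 := by exact_mod_cast hrJ
  have hLr : 8192 * L ^ 2 * r ≤ V := by
    refine le_trans ?_ hVR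
    apply mul_le_mul_of_nonneg_left hrR (by positivity)
  have hVP : (V : ℝ) ≤ P := by
    have : V ≤ P := by omega
    exact_mod_cast this
  have hLr2 : 8192 * L ^ 2 * r ≤ P := hLr.trans hVP
  have hrR1 : (1 : ℝ) ≤ r := by exact_mod_cast hr1
  have h12 : 12 * L ≤ P := by
    refine le_trans ?_ hLr2
    have hLL : L ≤ L ^ 2 := by nlinarith
    nlinarith
  -- (c)
  have hc : (4 * P) ^ (6 * r) ≤ M := by
    have h1 : 4 * P ≤ 2 ^ (v + 3 + 4 * l) := by
      calc 4 * P ≤ 4 * (2 ^ (v + 1) * 2 ^ (4 * l)) :=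
            Nat.mul_le_mul_left _ (hv3.trans (Nat.mul_le_mul_left _ hVl))
        _ = 2 ^ (v + 3 + 4 * l) := by ring
    have h2 : (4 * P) ^ (6 * r) ≤ 2 ^ ((v + 3 + 4 * l) * (6 * r)) := by
      rw [pow_mul 2]
      exact Nat.pow_le_pow_left h1 _
    refine h2.trans (le_trans ?_ hM)
    apply Nat.pow_le_pow_right (by norm_num)
    have h3 : (v + 3 + 4 * l) * (6 * r) ≤ 6 * (J + v + (3 + 4 * l) * (J + 1)) := by
      calc (v + 3 + 4 * l) * (6 * r) = 6 * (v * r + (3 + 4 * l) * r) := by ring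
        _ ≤ 6 * (J + v + (3 + 4 * l) * (J + 1)) := by
            apply Nat.mul_le_mul_left
            exact Nat.add_le_add hvr2 (Nat.mul_le_mul_left _ hrJ)
    refine h3.trans ?_
    have h4 : J + v ≤ 3 * m * (h * l) := by
      have h5 : h ≤ h * l := Nat.le_mul_of_pos_right _ hl1
      calc J + v ≤ 2 * m * h + m * h := by rw [hJ]; exact Nat.add_le_add_left hve _
        _ = 3 * m * h := by ring
        _ ≤ 3 * m * (h * l) := Nat.mul_le_mul_left _ h5
    have h5 : (3 + 4 * l) * (J + 1) ≤ (14 * m + 7) * (h * l) := by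
      calc (3 + 4 * l) * (J + 1) ≤ (7 * l) * ((2 * m + 1) * h) := Nat.mul_le_mul (by omega) hJ1
        _ = (14 * m + 7) * (h * l) := by ring
    have h6 : h * l ≤ h * l ^ 3 := Nat.mul_le_mul_left _ (Nat.le_self_pow (by norm_num) l)
    calc 6 * (J + v + (3 + 4 * l) * (J + 1)) ≤ 6 * (3 * m * (h * l) + (14 * m + 7) * (h * l)) := by
          omega
      _ = (102 * m + 42) * (h * l) := by ring
      _ ≤ A5 m * (h * l ^ 3) := by
          apply Nat.mul_le_mul _ h6
          unfold A5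
          omega
  have hkey := hK k P r M L hkP' hkP hP7 hL1 h12 (hP0 P (hh0.trans hhP)) hr1 hLr2 hc
  refine hkey.trans ?_
  have hrat : 8192 * L ^ 2 * r / P ≤ 1 / 2 ^ v := by
    rw [div_le_div_iff₀ hP0' (by positivity), one_mul]
    have h1 : (2 : ℝ) ^ v * V ≤ P := by exact_mod_cast hv2
    calc 8192 * L ^ 2 * r * 2 ^ v ≤ V * 2 ^ v := mul_le_mul_of_nonneg_right hLr (by positivity)
      _ = 2 ^ v * V := by ring
      _ ≤ P := h1
  have hpow : (8192 * L ^ 2 * r / P) ^ r ≤ 1 / 2 ^ (J + 1) := by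
    calc (8192 * L ^ 2 * r / P) ^ r ≤ (1 / 2 ^ v) ^ r := pow_le_pow_left₀ (by positivity) hrat r
      _ = 1 / 2 ^ (v * r) := by rw [one_div_pow, ← pow_mul]
      _ ≤ 1 / 2 ^ (J + 1) := by
          apply one_div_le_one_div_of_le (by positivity)
          exact pow_le_pow_right₀ (by norm_num) hvr
  calc 2 * (M : ℝ) * (8192 * L ^ 2 * r / P) ^ r ≤ 2 * (M : ℝ) * (1 / 2 ^ (J + 1)) :=
        mul_le_mul_of_nonneg_left hpow (by positivity)
    _ = M / 2 ^ J := by rw [pow_succ]; field_simp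
    _ = M / 2 ^ (2 * m * h) := by rw [hJ]

end Pool.Agent.H31.SQ
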