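import Pool.Agent.H31.SQ.Core

set_option autoImplicit false

open Finset Filter Topology

namespace Pool.Agent.H31.SQ

/-- the truncated sum -/
noncomputable def truncF (B : Finset ℕ) (D : ℕ) : ℝ :=
  ∑ T ∈ B.powerset.filter (fun T => ∏ p ∈ T, p ≤ D), (-1 : ℝ) ^ T.card

/-- the number of boundary products -/
noncomputable def truncG (B : Finset ℕ) (y D : ℕ) : ℝ :=
  ((B.powerset.filter (fun T => D < ∏ p ∈ T, p ∧ ∏ p ∈ T, p ≤ D * y)).card : ℝ)

theorem truncF_insert {a : ℕ} {B : Finset ℕ} (ha : a ∉ B) (ha2 : 0 < a) (D : ℕ) :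
    truncF (insert a B) D = truncF B D - truncF B (D / a) := by
  unfold truncF
  simp only [Finset.sum_filter]
  rw [Finset.sum_powerset_insert ha, sub_eq_add_neg, ← Finset.sum_neg_distrib]
  congr 1
  refine Finset.sum_congr rfl fun T hT => ?_
  have haT : a ∉ T := fun h => ha (Finset.mem_powerset.mp hT h)
  rw [Finset.prod_insert haT, Finset.card_insert_of_notMem haT]
  have : (a * ∏ p ∈ T, p ≤ D) ↔ (∏ p ∈ T, p ≤ D / a) := by
    rw [Nat.le_div_iff_mul_le ha2, mul_comm]
  by_cases h : ∏ p ∈ T, p ≤ D / a
  · rw [if_pos (this.mpr h), if_pos h, pow_succ]; ring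
  · rw [if_neg (fun h' => h (this.mp h')), if_neg h, neg_zero]

theorem truncG_insert {a : ℕ} {B : Finset ℕ} (ha : a ∉ B) (ha2 : 0 < a) (y D : ℕ) :
    truncG B y D + truncG B y (D / a) ≤ truncG (insert a B) y D := by
  unfold truncG
  simp only [Finset.card_filter, Nat.cast_sum]
  rw [Finset.sum_powerset_insert ha]
  gcongr with T hT
  have haT : a ∉ T := fun h => ha (Finset.mem_powerset.mp hT h)
  rw [Finset.prod_insert haT]
  by_cases h : D / a < ∏ p ∈ T, p ∧ ∏ p ∈ T, p ≤ D / a * y
  · rw [if_pos h, if_pos]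
    refine ⟨?_, ?_⟩
    · have := (Nat.div_lt_iff_lt_mul ha2).mp h.1
      rwa [mul_comm]
    · calc a * ∏ p ∈ T, p ≤ a * (D / a * y) := Nat.mul_le_mul_left _ h.2
        _ = (a * (D / a)) * y := by ring
        _ ≤ D * y := Nat.mul_le_mul_right _ (Nat.mul_div_le D a)
  · rw [if_neg h]; positivity

theorem truncF_zero {B : Finset ℕ} (hB : ∀ p ∈ B, 2 ≤ p) : truncF B 0 = 0 := by
  unfold truncF
  rw [Finset.sum_eq_zero]
  intro T hT
  rw [Finset.mem_filter, Finset.mem_powerset] at hT
  exfalso
  have : 0 < ∏ p ∈ T, p := Finset.prod_pos fun p hp => by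
    have := hB p (hT.1 hp); omega
  omega

theorem truncG_nonneg (B : Finset ℕ) (y D : ℕ) : 0 ≤ truncG B y D := by
  unfold truncG; positivity

theorem trunc_main (y : ℕ) (B : Finset ℕ) : (∀ p ∈ B, 2 ≤ p ∧ p ≤ y) → ∀ D : ℕ, 1 ≤ D →
    |(if B = ∅ then (1 : ℝ) else 0) - truncF B D| ≤ truncG B y D := by
  induction B using Finset.induction_on with
  | empty =>
    intro _ D hD
    have : truncF ∅ D = 1 := by
      unfold truncF
      rw [Finset.powerset_empty, Finset.filter_singleton, if_pos (by simpa using hD)]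
      simp
    rw [this]
    simpa using truncG_nonneg ∅ y D
  | insert a B ha ih =>
    intro hB D hD
    have ha2 : 2 ≤ a ∧ a ≤ y := hB a (Finset.mem_insert_self _ _)
    have hB' : ∀ p ∈ B, 2 ≤ p ∧ p ≤ y := fun p hp => hB p (Finset.mem_insert_of_mem hp)
    have ha0 : 0 < a := by omega
    rw [if_neg (Finset.insert_ne_empty _ _), truncF_insert ha ha0, zero_sub, abs_neg]
    have hG := truncG_insert ha ha0 y D
    have h1 := ih hB' D hD
    rcases Nat.eq_zero_or_pos (D / a) with h0 | hpos
    · rw [h0, truncF_zero fun p hp => (hB' p hp).1, sub_zero]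
      by_cases hBe : B = ∅
      · subst hBe
        have hF : truncF ∅ D = 1 := by
          unfold truncF
          rw [Finset.powerset_empty, Finset.filter_singleton, if_pos (by simpa using hD)]
          simp
        rw [hF, abs_one]
        unfold truncG
        have hlt : D < a := by
          rcases Nat.lt_or_ge D a with h | h
          · exact h
          · exact absurd h0 (Nat.div_pos h ha0).ne'
        have hmem : ({a} : Finset ℕ) ∈ ((insert a (∅ : Finset ℕ)).powerset.filter
            (fun T => D < ∏ p ∈ T, p ∧ ∏ p ∈ T, p ≤ D * y)) := by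
          rw [Finset.mem_filter, Finset.mem_powerset]
          refine ⟨by simp, ?_, ?_⟩
          · simpa using hlt
          · rw [Finset.prod_singleton]
            calc a ≤ y := ha2.2
              _ = 1 * y := (one_mul y).symm
              _ ≤ D * y := Nat.mul_le_mul_right _ hD
        exact_mod_cast Finset.card_pos.mpr ⟨_, hmem⟩
      · rw [if_neg hBe, zero_sub, abs_neg] at h1
        have := truncG_nonneg B y (D / a)
        linarith
    · have h2 := ih hB' (D / a) hpos
      have : truncF B D - truncF B (D / a) =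
          -((if B = ∅ then (1 : ℝ) else 0) - truncF B D) +
            ((if B = ∅ then (1 : ℝ) else 0) - truncF B (D / a)) := by ring
      rw [this]
      refine (abs_add_le _ _).trans ?_
      rw [abs_neg]
      linarith

/-- JOB TRUNC. -/
theorem trunc : S_TRUNC := fun B y hB D hD => trunc_main y B hB D hD

end Pool.Agent.H31.SQ
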