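import Pool.Agent.H31.SQ.Fixh5
import Pool.Agent.H31.SQ.Small5
import Pool.Agent.H31.SQ.Trunc
import Pool.Agent.H31.SQ.Kum
import Pool.Agent.H31.SQ.Rank

set_option autoImplicit false

open Finset Filter Topology

namespace Pool.Agent.H31.SQ

open Pool.Agent.H324.SQ Pool.Agent.Helper530.Sq.SqFAsm

theorem propf5_true (hE : S_ER) : S_PROPF5 := propf5 (small5 (key2 hE)) (fixh5 (fix4 kum rank trunc))

/-- the error function -/
noncomputable def EE (c : ℝ) (N : ℕ) : ℝ :=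
  Real.exp (-(c * (Real.log N / Real.log (Real.log N) ^ 3)))

/-- identification of the density -/
theorem ident (k q a : ℕ) (l L ε : ℝ) (M0 : ℕ) (hM0 : 1 ≤ M0)
    (hl : Tendsto (fun N : ℕ => (cnt k q a N : ℝ) / N) atTop (𝓝 l))
    (hL : ∀ M : ℕ, M0 ≤ M → |(cnt k q a M : ℝ) - L * M| ≤ M * ε) (N : ℕ) (hN : M0 ≤ N) :
    |(cnt k q a N : ℝ) - l * N| ≤ 2 * N * ε := by
  have hN1 : 0 < N := lt_of_lt_of_le hM0 hN
  have hN0 : (0 : ℝ) < N := by exact_mod_cast hN1
  have h1 : |l - L| ≤ ε := by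
    have h2 : Tendsto (fun N : ℕ => |(cnt k q a N : ℝ) / N - L|) atTop (𝓝 |l - L|) :=
      (hl.sub_const L).abs
    apply le_of_tendsto h2
    filter_upwards [eventually_ge_atTop M0] with M hM
    have hM1 : 0 < M := lt_of_lt_of_le hM0 hM
    have hM0 : (0 : ℝ) < M := by exact_mod_cast hM1
    have h7 : (cnt k q a M : ℝ) / M - L = ((cnt k q a M : ℝ) - L * M) / M := by
      field_simp
    rw [h7, abs_div, abs_of_pos hM0, div_le_iff₀ hM0]
    refine (hL M hM).trans (le_of_eq ?_)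
    ring
  have h3 := hL N hN
  calc |(cnt k q a N : ℝ) - l * N| = |((cnt k q a N : ℝ) - L * N) + -((l - L) * N)| := by
        congr 1; ring
    _ ≤ |(cnt k q a N : ℝ) - L * N| + |-((l - L) * N)| := abs_add_le _ _
    _ = |(cnt k q a N : ℝ) - L * N| + |l - L| * N := by
        rw [abs_neg, abs_mul, abs_of_pos hN0]
    _ ≤ N * ε + ε * N := add_le_add h3 (mul_le_mul_of_nonneg_right h1 hN0.le)
    _ = 2 * N * ε := by ring

theorem main5 (hE : S_ER) (hLow : S_LOW) (hExh : S_EXH) : ∃ C c : ℝ, 0 < C ∧ 0 < c ∧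
    ∀ q : ℕ, 0 < q → ∀ a : ℕ, ∃ ρ : ℕ → ℝ,
    (∀ k, 0 ≤ ρ k) ∧ Summable ρ ∧ 1 / (q : ℝ) ≤ ∑' k, ρ k ∧
    (∀ k, Tendsto (fun N : ℕ => (cnt k q a N : ℝ) / N) atTop (𝓝 (ρ k))) ∧ ∀ N : ℕ, 16 ≤ N →
    ∑ k ∈ range N, |(cnt k q a N : ℝ) - ρ k * N| ≤ C * N * EE c N ∧
    |(rows q a N : ℝ) - 2 * (∑' k, ρ k) * N| ≤ C * N * EE c N := by
  obtain ⟨D, r, hD0, hr0, hr1, hmid, hA⟩ := asm3 propf_true3
  obtain ⟨h00, hB⟩ := hA 1 le_rfl
  obtain ⟨m, hm5, hm16⟩ : ∃ m : ℕ, 5 ≤ m ∧ r ^ m ≤ 1 / 16 := by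
    obtain ⟨n, hn⟩ := exists_pow_lt_of_lt_one (show (0 : ℝ) < 1 / 16 by norm_num) hr1
    refine ⟨max n 5, le_max_right _ _, ?_⟩
    exact (pow_le_pow_of_le_one hr0.le hr1.le (le_max_left _ _)).trans hn.le
  obtain ⟨h0, hP⟩ := propf5_true hE m
  have hA1' : 1 ≤ A5 m := by unfold A5; omega
  obtain ⟨A, hAdef⟩ : ∃ A, A = A5 m := ⟨_, rfl⟩
  rw [← hAdef] at hP hA1'
  obtain ⟨c, H0, hc, hlow⟩ := hLow A hA1'
  obtain ⟨H, hH⟩ : ∃ H, H = max (max h0 H0) (2 ^ (m + 4)) := ⟨_, rfl⟩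
  have hH0 : h0 ≤ H := by rw [hH]; exact (le_max_left _ _).trans (le_max_left _ _)
  have hH0' : H0 ≤ H := by rw [hH]; exact (le_max_right _ _).trans (le_max_left _ _)
  have hHm : 2 ^ (m + 4) ≤ H := by rw [hH]; exact le_max_right _ _
  have hH1 : 1 ≤ H := le_trans Nat.one_le_two_pow hHm
  obtain ⟨N0, hN0⟩ : ∃ N0, N0 = max 16 (2 ^ (A * (H * lam H ^ 3))) := ⟨_, rfl⟩
  have hN01 : 16 ≤ N0 := by rw [hN0]; exact le_max_left _ _
  obtain ⟨e0, he0⟩ : ∃ e0, e0 = Real.exp (-(c * Real.log N0)) := ⟨_, rfl⟩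
  have he0pos : 0 < e0 := by rw [he0]; exact Real.exp_pos _
  obtain ⟨C2, hC2⟩ : ∃ C2 : ℝ, C2 = (N0 + 2 * (1 + D)) / e0 := ⟨_, rfl⟩
  have hC20 : 0 ≤ C2 := by rw [hC2]; positivity
  refine ⟨(5 + 7 * D) + C2, c, by positivity, hc, fun q hq a => ?_⟩
  obtain ⟨ρ, hρ0, hρ1, hsum, hz, hlim, htl, htail, -⟩ := hB q hq a
  have hS0 : ρ 0 ≤ ∑' k, ρ k := hsum.le_tsum 0 fun k _ => hρ0 k
  have hS1 : ∑' k, ρ k ≤ 1 + D := by
    have h1 := htl 0
    rw [hsum.tsum_eq_zero_add]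
    simp only [pow_zero, mul_one] at h1
    linarith [hρ1 0]
  refine ⟨ρ, hρ0, hsum, by rw [← hz]; exact hS0, hlim, fun N hN16 => ?_⟩
  have hN : 1 ≤ N := by omega
  have hNR : (0 : ℝ) < N := by exact_mod_cast hN
  obtain ⟨E, hE⟩ : ∃ E, E = EE c N := ⟨_, rfl⟩
  rw [← hE]
  have hE0 : 0 < E := by rw [hE]; exact Real.exp_pos _
  have hSnn : 0 ≤ ∑' k, ρ k := (hρ0 0).trans hS0
  by_cases hlarge : N0 ≤ N
  · have hlarge' : 2 ^ (A * (H * lam H ^ 3)) ≤ N := by
      refine le_trans ?_ hlarge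
      rw [hN0]
      exact le_max_right _ _
    obtain ⟨h, hhH, hh1, hh2⟩ := hExh A H N hA1' hH1 hlarge'
    have hhm : 2 ^ (m + 4) ≤ h := hHm.trans hhH
    have hlam : m + 4 ≤ lam h := lam_ge _ _ hhm
    have hh1' : 1 ≤ h := le_trans Nat.one_le_two_pow hhm
    have hlow' := hlow h N (hH0'.trans hhH) hh1 hh2
    change (1 : ℝ) / 2 ^ (4 * h) ≤ EE c N at hlow'
    rw [← hE] at hlow'
    obtain ⟨J, hJ⟩ : ∃ J, J = m * h := ⟨_, rfl⟩
    have hJJ : 2 * m * h = J + J := by rw [hJ]; ring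
    obtain ⟨w, hw⟩ : ∃ w : ℝ, w = 1 / 2 ^ (4 * h) := ⟨_, rfl⟩
    rw [← hw] at hlow'
    have hw0 : 0 < w := by rw [hw]; positivity
    have hrJ : r ^ J ≤ w := by
      calc r ^ J = (r ^ m) ^ h := by rw [hJ, pow_mul]
        _ ≤ (1 / 16) ^ h := pow_le_pow_left₀ (by positivity) hm16 _
        _ = w := by
            rw [hw, one_div_pow]
            congr 1
            rw [pow_mul]
            norm_num
    have h2J : (1 : ℝ) / 2 ^ J ≤ w := by
      rw [hw]
      apply one_div_le_one_div_of_le (by positivity)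
      apply pow_le_pow_right₀ (by norm_num)
      rw [hJ]
      exact Nat.mul_le_mul_right _ (by omega)
    have hJ10 : J + 4 * h ≤ A * (h * lam h ^ 3) := by
      calc J + 4 * h = (m + 4) * h := by rw [hJ]; ring
        _ ≤ lam h * h := Nat.mul_le_mul_right _ hlam
        _ ≤ lam h ^ 3 * h := Nat.mul_le_mul_right _ (Nat.le_self_pow (by norm_num) _)
        _ = h * lam h ^ 3 := by ring
        _ ≤ A * (h * lam h ^ 3) := Nat.le_mul_of_pos_left _ hA1'
    have h2JN : ((2 : ℝ) ^ J) ≤ N * w := by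
      rw [hw, mul_one_div, le_div_iff₀ (by positivity), ← pow_add]
      have h3 : 2 ^ (J + 4 * h) ≤ N := (Nat.pow_le_pow_right (by norm_num) hJ10).trans hh1
      exact_mod_cast h3
    have hKN : 2 ^ J ≤ N := by
      refine le_trans ?_ hh1
      apply Nat.pow_le_pow_right (by norm_num)
      omega
    have hDrJ : D * r ^ J ≤ D * w := mul_le_mul_of_nonneg_left hrJ hD0.le
    have hDNrJ : D * N * r ^ J ≤ D * N * w := mul_le_mul_of_nonneg_left hrJ (by positivity)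
    have hmain : ∀ k, k < 2 ^ J → |(cnt k q a N : ℝ) - ρ k * N| ≤ 2 * N / 2 ^ (J + J) := by
      intro k hk
      obtain ⟨L, hL⟩ := hP h (hH0.trans hhH) k (by rw [← hJ]; exact hk) q hq a
      have h9 := ident k q a (ρ k) L (1 / 2 ^ (2 * m * h)) (2 ^ (A * (h * lam h ^ 3)))
        Nat.one_le_two_pow (hlim k) (fun M hM => by
          have := hL M hM
          rw [mul_one_div]
          exact this) N hh1
      rw [mul_one_div, hJJ] at h9
      exact h9
    obtain ⟨c1, c2⟩ := large_part D q a N J w hN ρ hρ0 hsum ((htl J).trans hDrJ)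
      ((htail N J N hN).trans hDNrJ) ((hmid N J hN).trans (by linarith)) h2J h2JN hKN hmain
    have hX : 0 ≤ (N : ℝ) * w := by positivity
    have hDX : 0 ≤ D * N * w := by positivity
    have hfinal : 5 * (N : ℝ) * w + 7 * (D * N * w) ≤ ((5 + 7 * D) + C2) * N * E := by
      calc 5 * (N : ℝ) * w + 7 * (D * N * w) = (5 + 7 * D) * N * w := by ring
        _ ≤ ((5 + 7 * D) + C2) * N * w := by
            apply mul_le_mul_of_nonneg_right _ hw0.le
            apply mul_le_mul_of_nonneg_right _ hNR.le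
            linarith
        _ ≤ ((5 + 7 * D) + C2) * N * E := mul_le_mul_of_nonneg_left hlow' (by positivity)
    have e1 : 2 * (N : ℝ) * w = 2 * (N * w) := by ring
    have e2 : 5 * (N : ℝ) * w = 5 * (N * w) := by ring
    constructor
    · refine c1.trans (le_trans ?_ hfinal)
      rw [e1, e2]
      linarith
    · exact c2.trans hfinal
  · push Not at hlarge
    have hEe : e0 ≤ E := by
      rw [he0, hE]
      unfold EE
      apply Real.exp_le_exp.2
      have h1 : Real.log N ≤ Real.log N0 := by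
        apply Real.log_le_log hNR
        exact_mod_cast hlarge.le
      have h16 : (16 : ℝ) ≤ N := by exact_mod_cast hN16
      have h2 : Real.exp 1 ≤ Real.log N := by
        have h3 : Real.log 16 ≤ Real.log N := Real.log_le_log (by norm_num) h16
        have h4 : Real.log 16 = 4 * Real.log 2 := by
          rw [show (16 : ℝ) = 2 ^ 4 by norm_num, Real.log_pow]
          norm_num
        have h5 := Real.log_two_gt_d9
        have h6 := Real.exp_one_lt_d9
        linarith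
      have hlogN0 : 0 < Real.log N := lt_of_lt_of_le (Real.exp_pos 1) h2
      have h3 : 1 ≤ Real.log (Real.log N) := by
        rw [Real.le_log_iff_exp_le hlogN0]
        exact h2
      have h4 : (1 : ℝ) ≤ Real.log (Real.log N) ^ 3 := one_le_pow₀ h3
      have h5 : Real.log N / Real.log (Real.log N) ^ 3 ≤ Real.log N :=
        div_le_self hlogN0.le h4
      have h6 := mul_le_mul_of_nonneg_left (h5.trans h1) hc.le
      linarith
    exact small_part D e0 E _ hD0 he0pos hEe q a N N0 hN hlarge ρ hρ0 hρ1 _ hSnn hS1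
      (by rw [← hC2]; linarith)

end Pool.Agent.H31.SQ
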