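import Pool.Agent.H31.SQ.Fx2
import Pool.Agent.H31.SQ.Key2
import Pool.Agent.H31.SQ.CoreLow

set_option autoImplicit false

open Finset Filter Topology

namespace Pool.Agent.H31.SQ

open Pool.Agent.H324.SQ

def KK (m : ℕ) : ℕ := 2 ^ 18 * (2 * m + 1) + 2

def A1 (m : ℕ) : ℕ := 32 * KK m + 2 * m + 9

def A5 (m : ℕ) : ℕ := (1 + 13 * KK m + 4 * A1 m + 4 + (2 * m + 9)) + (102 * m + 42)

theorem lam_lt (h : ℕ) : h < 2 ^ lam h := by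
  unfold lam
  exact Nat.lt_pow_succ_log_self (by norm_num) h

theorem lam_ge (S h : ℕ) (hh : 2 ^ S ≤ h) : S ≤ lam h := by
  unfold lam
  have h1 : 2 ^ S < 2 ^ (Nat.log 2 h + 1) :=
    lt_of_le_of_lt hh (Nat.lt_pow_succ_log_self (by norm_num) h)
  have h2 := (Nat.pow_lt_pow_iff_right (by norm_num)).1 h1
  omega

theorem one_le_lam (h : ℕ) : 1 ≤ lam h := by unfold lam; omega

def S_SMALL5 : Prop := ∀ m : ℕ, ∃ h1 : ℕ, ∀ h ≥ h1, ∀ k : ℕ, (KK m * h * lam h ^ 2) ^ 2 ≤ k →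
  k < 2 ^ (m * h) → ∀ M : ℕ, 2 ^ (A5 m * (h * lam h ^ 3)) ≤ M →
  ((((range M).filter (fun n => Squarefree (n.choose k))).card : ℕ) : ℝ) ≤ M / 2 ^ (2 * m * h)

def S_FIXH5 : Prop := ∀ m : ℕ, ∃ h2 : ℕ, ∀ h ≥ h2, ∀ k : ℕ, k < (KK m * h * lam h ^ 2) ^ 2 →
  ∀ q : ℕ, 0 < q → ∀ a : ℕ, ∃ L : ℝ, ∀ M : ℕ, 2 ^ (A5 m * (h * lam h ^ 3)) ≤ M →
    |(cnt k q a M : ℝ) - L * M| ≤ M / 2 ^ (2 * m * h)

def S_PROPF5 : Prop := ∀ m : ℕ, ∃ h0 : ℕ, ∀ h ≥ h0, ∀ k : ℕ, k < 2 ^ (m * h) → ∀ q : ℕ,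
  0 < q → ∀ a : ℕ, ∃ L : ℝ, ∀ M : ℕ, 2 ^ (A5 m * (h * lam h ^ 3)) ≤ M →
    |(cnt k q a M : ℝ) - L * M| ≤ M / 2 ^ (2 * m * h)

theorem propf5 (hS : S_SMALL5) (hF : S_FIXH5) : S_PROPF5 := by
  intro m
  obtain ⟨h1, H1⟩ := hS m
  obtain ⟨h2, H2⟩ := hF m
  refine ⟨max h1 h2, fun h hh k hk q hq a => ?_⟩
  by_cases hk8 : k < (KK m * h * lam h ^ 2) ^ 2
  · exact H2 h ((le_max_right _ _).trans hh) k hk8 q hq a
  · push Not at hk8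
    refine ⟨0, fun M hM => ?_⟩
    have h3 := H1 h ((le_max_left _ _).trans hh) k hk8 hk M hM
    rw [zero_mul, sub_zero, abs_of_nonneg (Nat.cast_nonneg _)]
    refine le_trans ?_ h3
    have : cnt k q a M ≤ ((range M).filter (fun n => Squarefree (n.choose k))).card := by
      unfold cnt
      apply card_le_card
      intro n hn
      rw [mem_filter] at hn ⊢
      exact ⟨hn.1, hn.2.2.2⟩
    exact_mod_cast this

/-- polynomials against exponentials -/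
theorem growth (C d : ℕ) : ∃ S : ℕ, ∀ n ≥ S, C * (n + 3) ^ d ≤ 4 ^ n := by
  have h1 : Tendsto (fun n : ℕ => (n : ℝ) ^ d / (4 : ℝ) ^ n) atTop (𝓝 0) :=
    tendsto_pow_const_div_const_pow_of_one_lt d (by norm_num)
  have h2 : ∀ᶠ n : ℕ in atTop, (n : ℝ) ^ d / (4 : ℝ) ^ n ≤ 1 / ((C + 1) * 4 ^ d) :=
    h1.eventually_le_const (by positivity)
  obtain ⟨S, hS⟩ := Filter.eventually_atTop.1 h2
  refine ⟨max S 1, fun n hn => ?_⟩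
  have h3 := hS n ((le_max_left _ _).trans hn)
  have hn1 : 1 ≤ n := (le_max_right _ _).trans hn
  rw [div_le_div_iff₀ (by positivity) (by positivity), one_mul] at h3
  have h4 : (n ^ d * ((C + 1) * 4 ^ d) : ℕ) ≤ 4 ^ n := by exact_mod_cast h3
  calc C * (n + 3) ^ d ≤ (C + 1) * (4 * n) ^ d :=
        Nat.mul_le_mul (Nat.le_succ _) (Nat.pow_le_pow_left (by omega) d)
    _ = n ^ d * ((C + 1) * 4 ^ d) := by rw [mul_pow]; ring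
    _ ≤ 4 ^ n := h4

end Pool.Agent.H31.SQ
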